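import Pool.Agent.H419.AC.Stm
import Pool.Agent.H419.RM.SPS
import Pool.Graph.R_seed8.H921R2.TatePole.Main
import Pool.Graph.R_seed8.H921R2.TatePole.Dedekind

/-! # AC-BAU: totally split primes in two different Galois extensions of the same degree -/

set_option autoImplicit false

open NumberField IsDedekindDomain Filter Topology
open Pool.Agent.H419.RM Pool.Agent.H419.AC
open Pool.Agent.H921R2.TatePole (nm nm_summable prime_sum_bdd Lam Lam_tendsto two_le_nm)

namespace Pool.Agent.H419.AC.BAU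

open scoped Pointwise

section alg

/-- the stabilizer of a prime above a totally split prime is trivial -/
theorem stab_bot (K M : Type) [Field K] [NumberField K] [Field M] [NumberField M] [Algebra K M]
    [IsGalois K M] (𝔭 : Ideal (𝓞 K)) (P : Ideal (𝓞 M)) (hP : P.IsPrime)
    (hPo : P.under (𝓞 K) = 𝔭) :
    Spl K M 𝔭 ↔ MulAction.stabilizer Gal(M/K) P = ⊥ := by
  have hlo : P.LiesOver 𝔭 := ⟨hPo.symm⟩
  unfold Spl
  rw [← IsGalois.card_aut_eq_finrank K M,
    ← Algebra.IsInvariant.orbit_eq_primesOver (𝓞 K) (𝓞 M) Gal(M/K) 𝔭 P,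
    ← MulAction.index_stabilizer]
  constructor
  · intro h
    have h1 := (MulAction.stabilizer Gal(M/K) P).card_mul_index
    rw [h] at h1
    have h2 : 0 < Nat.card Gal(M/K) := Nat.card_pos
    have h3 : Nat.card (MulAction.stabilizer Gal(M/K) P) = 1 := by
      exact Nat.eq_of_mul_eq_mul_right h2 (by rw [h1, one_mul])
    exact (Subgroup.eq_bot_of_card_eq _ h3)
  · intro h
    rw [h, Subgroup.index_bot]

theorem restr (K M N : Type) [Field K] [NumberField K] [Field M] [NumberField M] [Field N]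
    [NumberField N] [Algebra K M] [Algebra K N] [Algebra M N] [IsScalarTower K M N]
    [IsGalois K M] [IsGalois K N] (𝔭 : Ideal (𝓞 K)) (hs : Spl K M 𝔭) (Q : Ideal (𝓞 N))
    (hQ : Q.IsPrime) (hQo : Q.under (𝓞 K) = 𝔭) (σ : Gal(N/K)) (hσ : σ • Q = Q) (x : M) :
    σ (algebraMap M N x) = algebraMap M N x := by
  set τ : Gal(M/K) := IsGaloisGroup.restrictHom Gal(N/K) Gal(M/K) (𝓞 K) (𝓞 M) (𝓞 N) σ with hτ
  have h1 : τ • Q.under (𝓞 M) = Q.under (𝓞 M) := by
    rw [hτ, IsGaloisGroup.restrictHom_smul_under, hσ]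
  have hP : (Q.under (𝓞 M)).IsPrime := inferInstance
  have hPo : (Q.under (𝓞 M)).under (𝓞 K) = 𝔭 := by
    rw [Ideal.under_under]
    exact hQo
  have h2 := (stab_bot K M 𝔭 _ hP hPo).1 hs
  have h3 : τ = 1 := by
    have h4 : τ ∈ MulAction.stabilizer Gal(M/K) (Q.under (𝓞 M)) := h1
    rw [h2] at h4
    exact Subgroup.mem_bot.1 h4
  have h5 : ∀ y : 𝓞 M, σ (algebraMap M N (y : M)) = algebraMap M N (y : M) := by
    intro y
    have h6 := IsGaloisGroup.algebraMap_restrictHom_smul Gal(N/K) Gal(M/K) (𝓞 K) (𝓞 M) (𝓞 N) σ y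
    rw [← hτ, h3, one_smul] at h6
    have h7 := congrArg (algebraMap (𝓞 N) N) h6
    exact h7.symm
  obtain ⟨a, b, hb, rfl⟩ := IsFractionRing.div_surjective (A := 𝓞 M) x
  rw [map_div₀, map_div₀]
  exact congrArg₂ (· / ·) (h5 a) (h5 b)

theorem split_sup (K M M' N : Type) [Field K] [NumberField K] [Field M] [NumberField M]
    [Field M'] [NumberField M'] [Field N] [NumberField N] [Algebra K M] [Algebra K M']
    [Algebra K N] [Algebra M N] [Algebra M' N] [IsScalarTower K M N] [IsScalarTower K M' N]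
    [IsGalois K M] [IsGalois K M'] [IsGalois K N]
    (hg : ∀ σ : Gal(N/K), (∀ x : M, σ (algebraMap M N x) = algebraMap M N x) →
      (∀ x : M', σ (algebraMap M' N x) = algebraMap M' N x) → σ = 1)
    (𝔭 : Ideal (𝓞 K)) (hp : 𝔭.IsPrime) (h : Spl K M 𝔭) (h' : Spl K M' 𝔭) : Spl K N 𝔭 := by
  obtain ⟨Q, hQ, hlo⟩ := (inferInstance : Nonempty (𝔭.primesOver (𝓞 N)))
  have hQo : Q.under (𝓞 K) = 𝔭 := hlo.over.symm
  rw [stab_bot K N 𝔭 Q hQ hQo, eq_bot_iff]
  intro σ hσ
  have hσ' : σ • Q = Q := hσ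
  rw [Subgroup.mem_bot]
  exact hg σ (restr K M N 𝔭 h Q hQ hQo σ hσ') (restr K M' N 𝔭 h' Q hQ hQo σ hσ')

end alg

section gen

variable {α β : Type}

theorem tsum_fib (π : α → β) (g : α → ℝ) (hg : Summable g) :
    Summable (fun b => ∑' a : {a // π a = b}, g a) ∧
      ∑' b, ∑' a : {a // π a = b}, g a = ∑' a, g a := by
  have h1 : Summable (g ∘ Equiv.sigmaFiberEquiv π) := (Equiv.sigmaFiberEquiv π).summable_iff.2 hg
  refine ⟨h1.sigma, ?_⟩
  rw [← (Equiv.sigmaFiberEquiv π).tsum_eq g]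
  exact (h1.tsum_sigma).symm

theorem pull_le (π : α → β) (n : ℕ) (hfin : ∀ b, {a | π a = b}.Finite)
    (hn : ∀ b, {a | π a = b}.ncard ≤ n) (h : β → ℝ) (h0 : ∀ b, 0 ≤ h b) (hs : Summable h) :
    Summable (fun a => h (π a)) ∧ ∑' a, h (π a) ≤ n * ∑' b, h b := by
  classical
  have hb : ∀ s : Finset α, ∑ a ∈ s, h (π a) ≤ n * ∑' b, h b := by
    intro s
    rw [Finset.sum_comp h π]
    calc ∑ b ∈ s.image π, (s.filter (fun a => π a = b)).card • h b
        ≤ ∑ b ∈ s.image π, (n : ℝ) * h b := by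
          refine Finset.sum_le_sum fun b _ => ?_
          rw [nsmul_eq_mul]
          refine mul_le_mul_of_nonneg_right ?_ (h0 b)
          have h1 : (s.filter (fun a => π a = b)).card ≤ n := by
            rw [← Set.ncard_coe_finset]
            refine (Set.ncard_le_ncard ?_ (hfin b)).trans (hn b)
            intro a ha
            exact (Finset.mem_filter.1 (Finset.mem_coe.1 ha)).2
          exact_mod_cast h1
      _ = n * ∑ b ∈ s.image π, h b := (Finset.mul_sum _ _ _).symm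
      _ ≤ n * ∑' b, h b :=
          mul_le_mul_of_nonneg_left (hs.sum_le_tsum _ (fun b _ => h0 b)) (Nat.cast_nonneg _)
  exact ⟨summable_of_sum_le (fun a => h0 _) hb, Real.tsum_le_of_sum_le (fun a => h0 _) hb⟩

end gen

section sums

variable (K M : Type) [Field K] [NumberField K] [Field M] [NumberField M] [Algebra K M]

open Classical in
/-- the terms of the sum over the totally split primes -/
noncomputable def fS (x : ℝ) (v : HeightOneSpectrum (𝓞 K)) : ℝ :=
  if Spl K M v.asIdeal then (nm v : ℝ) ^ (-x) else 0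

omit [NumberField M] in
theorem fS_nonneg (x : ℝ) (v : HeightOneSpectrum (𝓞 K)) : 0 ≤ fS K M x v := by
  unfold fS
  split_ifs
  · positivity
  · exact le_rfl

omit [NumberField M] in
theorem fS_le (x : ℝ) (v : HeightOneSpectrum (𝓞 K)) : fS K M x v ≤ (nm v : ℝ) ^ (-x) := by
  unfold fS
  split_ifs
  · exact le_rfl
  · positivity

omit [NumberField M] in
theorem fS_summable {x : ℝ} (hx : 1 < x) : Summable (fS K M x) :=
  Summable.of_nonneg_of_le (fS_nonneg K M x) (fS_le K M x) (nm_summable hx)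

/-- the fiber -/
theorem fib (𝔭 : HeightOneSpectrum (𝓞 K)) :
    {v : HeightOneSpectrum (𝓞 M) | v.under (𝓞 K) = 𝔭}.Finite ∧
    {v : HeightOneSpectrum (𝓞 M) | v.under (𝓞 K) = 𝔭}.ncard =
      (𝔭.asIdeal.primesOver (𝓞 M)).ncard := by
  have himg : HeightOneSpectrum.asIdeal '' {v : HeightOneSpectrum (𝓞 M) | v.under (𝓞 K) = 𝔭} =
      𝔭.asIdeal.primesOver (𝓞 M) := by
    ext P
    constructor
    · rintro ⟨v, hv, rfl⟩
      have h1 : (v.under (𝓞 K)).asIdeal = 𝔭.asIdeal := congrArg _ (Set.mem_ofPred_eq.mp hv)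
      exact ⟨v.isPrime, ⟨h1.symm⟩⟩
    · rintro ⟨hP, hlo⟩
      have hP0 : P ≠ ⊥ := Ideal.ne_bot_of_mem_primesOver 𝔭.ne_bot ⟨hP, hlo⟩
      refine ⟨⟨P, hP, hP0⟩, ?_, rfl⟩
      exact HeightOneSpectrum.ext hlo.over.symm
  have hinj : Function.Injective (HeightOneSpectrum.asIdeal (R := 𝓞 M)) :=
    fun a b h => HeightOneSpectrum.ext h
  constructor
  · apply Set.Finite.of_finite_image (f := HeightOneSpectrum.asIdeal) _ hinj.injOn
    rw [himg]
    exact SPS.finite_over K M 𝔭.asIdeal 𝔭.isPrime 𝔭.ne_bot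
  · rw [← Set.ncard_image_of_injective _ hinj, himg]

variable [IsGalois K M]

theorem fcts (v : HeightOneSpectrum (𝓞 M)) : ∃ e f : ℕ, 0 < e ∧ 0 < f ∧
      Set.ncard ((v.under (𝓞 K)).asIdeal.primesOver (𝓞 M)) * (e * f) = Module.finrank K M ∧
      nm v = nm (v.under (𝓞 K)) ^ f ∧
      (2 ≤ e → v.asIdeal ∣ differentIdeal (𝓞 K) (𝓞 M)) :=
  SPS.facts K M (v.under (𝓞 K)).asIdeal (v.under (𝓞 K)).isPrime (v.under (𝓞 K)).ne_bot v.asIdeal
    v.isPrime rfl

theorem lower {x : ℝ} (hx : 1 < x) : (Module.finrank K M : ℝ) * ∑' v, fS K M x v ≤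
    ∑' v : HeightOneSpectrum (𝓞 M), (nm v : ℝ) ^ (-x) := by
  classical
  have hn0 : 0 < Module.finrank K M := Module.finrank_pos
  obtain ⟨h1, h2⟩ := tsum_fib (fun v : HeightOneSpectrum (𝓞 M) => v.under (𝓞 K))
    (fun v => (nm v : ℝ) ^ (-x)) (nm_summable hx)
  rw [← h2, ← tsum_mul_left]
  refine Summable.tsum_le_tsum ?_ ((fS_summable K M hx).mul_left _) h1
  intro 𝔭
  by_cases hs : Spl K M 𝔭.asIdeal
  · have e1 : ∀ a : {a : HeightOneSpectrum (𝓞 M) // a.under (𝓞 K) = 𝔭},
        (nm a.1 : ℝ) ^ (-x) = (nm 𝔭 : ℝ) ^ (-x) := by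
      rintro ⟨a, ha⟩
      obtain ⟨e, f, he, hf, h3, h4, -⟩ := fcts K M a
      rw [ha] at h3 h4
      have hs' : Set.ncard (𝔭.asIdeal.primesOver (𝓞 M)) = Module.finrank K M := hs
      rw [hs'] at h3
      have h5 : e * f = 1 := Nat.eq_of_mul_eq_mul_left hn0 (by rw [h3, mul_one])
      have hf1 : f = 1 := Nat.dvd_one.1 ⟨e, by rw [mul_comm]; exact h5.symm⟩
      rw [hf1, pow_one] at h4
      show (nm a : ℝ) ^ (-x) = (nm 𝔭 : ℝ) ^ (-x)
      rw [h4]
    rw [tsum_congr e1, tsum_const, nsmul_eq_mul]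
    have e2 : Nat.card {a : HeightOneSpectrum (𝓞 M) // a.under (𝓞 K) = 𝔭} =
        Module.finrank K M := (fib K M 𝔭).2.trans hs
    rw [e2]
    have e3 : fS K M x 𝔭 = (nm 𝔭 : ℝ) ^ (-x) := if_pos hs
    rw [e3]
  · have e3 : fS K M x 𝔭 = 0 := if_neg hs
    rw [e3, mul_zero]
    exact tsum_nonneg fun a => by positivity

theorem upper : ∃ C : ℝ, ∀ x : ℝ, 1 < x →
    ∑' v : HeightOneSpectrum (𝓞 M), (nm v : ℝ) ^ (-x) ≤
      (Module.finrank K M : ℝ) * ∑' v, fS K M x v + C := by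
  classical
  let π : HeightOneSpectrum (𝓞 M) → HeightOneSpectrum (𝓞 K) := fun v => v.under (𝓞 K)
  have hfin : ∀ b, {a | π a = b}.Finite := fun b => (fib K M b).1
  have hn : ∀ b, {a | π a = b}.ncard ≤ Module.finrank K M := by
    intro b
    have h1 : {a | π a = b}.ncard = (b.asIdeal.primesOver (𝓞 M)).ncard := (fib K M b).2
    rcases Set.eq_empty_or_nonempty {a | π a = b} with h0 | ⟨a, ha⟩
    · rw [h0, Set.ncard_empty]
      exact Nat.zero_le _
    · obtain ⟨e, f, he, hf, h3, -, -⟩ := fcts K M a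
      have ha' : a.under (𝓞 K) = b := ha
      rw [ha'] at h3
      rw [h1, ← h3]
      exact Nat.le_mul_of_pos_right _ (Nat.mul_pos he hf)
  let gC : HeightOneSpectrum (𝓞 M) → ℝ := fun v =>
    if v.asIdeal ∣ differentIdeal (𝓞 K) (𝓞 M) then 1 else 0
  have hC0 : ∀ v, 0 ≤ gC v := by
    intro v
    show 0 ≤ (if v.asIdeal ∣ differentIdeal (𝓞 K) (𝓞 M) then (1 : ℝ) else 0)
    split_ifs
    · exact zero_le_one
    · exact le_rfl
  have s3 : Summable gC := by
    have hf := Ideal.finite_factors (SPS.diff_ne K M)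
    refine summable_of_hasFiniteSupport (hf.subset ?_)
    intro v hv
    by_contra hc
    exact hv (if_neg hc)
  let hB : HeightOneSpectrum (𝓞 K) → ℝ := fun v => (nm v : ℝ) ^ (-(2 : ℝ))
  have s2 : Summable hB := nm_summable (by norm_num)
  refine ⟨Module.finrank K M * ∑' v, hB v + ∑' v, gC v, fun x hx => ?_⟩
  obtain ⟨p1, p2⟩ := pull_le π _ hfin hn (fS K M x) (fS_nonneg K M x) (fS_summable K M hx)
  obtain ⟨q1, q2⟩ := pull_le π _ hfin hn hB (fun v => by positivity) s2
  have h1 : ∑' v : HeightOneSpectrum (𝓞 M), (nm v : ℝ) ^ (-x) ≤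
      ∑' v, (fS K M x (π v) + hB (π v) + gC v) := by
    refine Summable.tsum_le_tsum ?_ (nm_summable hx) ((p1.add q1).add s3)
    intro v
    obtain ⟨e, f, he, hf, h3, h4, h5⟩ := fcts K M v
    have h2 : (2 : ℝ) ≤ nm (v.under (𝓞 K)) := by exact_mod_cast two_le_nm (v.under (𝓞 K))
    have h2v : (2 : ℝ) ≤ nm v := by exact_mod_cast two_le_nm v
    by_cases hf2 : 2 ≤ f
    · have h6 : (nm v : ℝ) ^ (-x) ≤ hB (π v) := by
        show (nm v : ℝ) ^ (-x) ≤ (nm (v.under (𝓞 K)) : ℝ) ^ (-(2 : ℝ))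
        rw [h4]
        push_cast
        rw [← Real.rpow_natCast, ← Real.rpow_mul (by positivity)]
        refine Real.rpow_le_rpow_of_exponent_le (by linarith) ?_
        have : (2 : ℝ) ≤ f := by exact_mod_cast hf2
        nlinarith
      linarith [fS_nonneg K M x (π v), hC0 v]
    by_cases he2 : 2 ≤ e
    · have h6 : gC v = 1 := if_pos (h5 he2)
      have h7 : (nm v : ℝ) ^ (-x) ≤ 1 :=
        Real.rpow_le_one_of_one_le_of_nonpos (by linarith) (by linarith)
      have h8 : 0 ≤ hB (π v) := by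
        show 0 ≤ (nm (v.under (𝓞 K)) : ℝ) ^ (-(2 : ℝ))
        positivity
      linarith [fS_nonneg K M x (π v)]
    have hf1 : f = 1 := by omega
    have he1 : e = 1 := by omega
    rw [he1, hf1, mul_one, mul_one] at h3
    rw [hf1, pow_one] at h4
    have h6 : fS K M x (π v) = (nm (v.under (𝓞 K)) : ℝ) ^ (-x) := if_pos h3
    have h8 : 0 ≤ hB (π v) := by
      show 0 ≤ (nm (v.under (𝓞 K)) : ℝ) ^ (-(2 : ℝ))
      positivity
    rw [h6, h4]
    linarith [hC0 v]
  rw [(p1.add q1).tsum_add s3, p1.tsum_add q1] at h1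
  linarith

end sums


section ram

variable (K M : Type) [Field K] [NumberField K] [Field M] [NumberField M] [Algebra K M]

theorem red_iff {A : Type} [CommRing A] [IsDedekindDomain A] (I : Ideal A) (hI : I ≠ ⊥) :
    IsReduced (A ⧸ I) ↔ Squarefree I := by
  rw [← Ideal.isRadical_iff_quotient_reduced, ← isRadical_iff_squarefree_of_ne_zero hI]
  constructor
  · intro h n X hX
    rw [Ideal.dvd_iff_le] at hX ⊢
    intro x hx
    exact h ⟨n, hX (Ideal.pow_mem_pow hx n)⟩
  · rintro h x ⟨n, hn⟩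
    have h1 : I ∣ Ideal.span {x} ^ n := by
      rw [Ideal.dvd_iff_le, Ideal.span_singleton_pow, Ideal.span_singleton_le_iff_mem]
      exact hn
    have h2 := h n _ h1
    rwa [Ideal.dvd_iff_le, Ideal.span_singleton_le_iff_mem] at h2

/-- only finitely many primes are ramified -/
theorem ram_finite : {v : HeightOneSpectrum (𝓞 K) | ¬ Unr K M v.asIdeal}.Finite := by
  have hf := (Ideal.finite_factors (SPS.diff_ne K M)).image
    (fun w : HeightOneSpectrum (𝓞 M) => w.under (𝓞 K))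
  refine hf.subset ?_
  intro v hv
  have hmap : v.asIdeal.map (algebraMap (𝓞 K) (𝓞 M)) ≠ ⊥ := Ideal.map_ne_bot_of_ne_bot v.ne_bot
  have hv1 : ¬ IsReduced (𝓞 M ⧸ v.asIdeal.map (algebraMap (𝓞 K) (𝓞 M))) := hv
  rw [red_iff _ hmap, squarefree_iff_no_irreducibles hmap] at hv1
  push Not at hv1
  obtain ⟨P, hP, hd⟩ := hv1
  have hPp : Prime P := hP.prime
  have hPi : P.IsPrime := Ideal.isPrime_of_prime hPp
  have hP0 : P ≠ ⊥ := hPp.ne_zero
  have h3 := pow_sub_one_dvd_differentIdeal (𝓞 K) P 2 v.ne_bot (by rw [pow_two]; exact hd)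
  have h4 : P ∣ differentIdeal (𝓞 K) (𝓞 M) := by simpa using h3
  refine ⟨⟨P, hPi, hP0⟩, h4, ?_⟩
  apply HeightOneSpectrum.ext
  show P.under (𝓞 K) = v.asIdeal
  have h5 : v.asIdeal ≤ P.comap (algebraMap (𝓞 K) (𝓞 M)) :=
    Ideal.map_le_iff_le_comap.1 (Ideal.le_of_dvd ((dvd_mul_right P P).trans hd))
  have h6 : v.asIdeal.IsMaximal := v.isPrime.isMaximal v.ne_bot
  have h7 : (P.comap (algebraMap (𝓞 K) (𝓞 M))) ≠ ⊤ := (Ideal.IsPrime.comap _).ne_top
  exact (h6.eq_of_le h7 h5).symm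

end ram

theorem core (K M M' N : Type) [Field K] [NumberField K] [Field M] [NumberField M]
    [Field M'] [NumberField M'] [Field N] [NumberField N] [Algebra K M] [Algebra K M']
    [Algebra K N] [Algebra M N] [Algebra M' N] [IsScalarTower K M N] [IsScalarTower K M' N]
    [IsGalois K M] [IsGalois K M'] [IsGalois K N]
    (hg : ∀ σ : Gal(N/K), (∀ x : M, σ (algebraMap M N x) = algebraMap M N x) →
      (∀ x : M', σ (algebraMap M' N x) = algebraMap M' N x) → σ = 1)
    (hlt : Module.finrank K M < Module.finrank K N)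
    (hs : Summable (fun 𝔭 : {𝔭 : Ideal (𝓞 K) | 𝔭.IsPrime ∧ 𝔭 ≠ ⊥ ∧ Spl K M 𝔭 ∧ Unr K M' 𝔭 ∧
      ¬ Spl K M' 𝔭} => (1 : ℝ) / Ideal.absNorm 𝔭.1)) : False := by
  classical
  -- the primes of the sum
  let gD : HeightOneSpectrum (𝓞 K) → ℝ := fun v =>
    if Spl K M v.asIdeal ∧ Unr K M' v.asIdeal ∧ ¬ Spl K M' v.asIdeal then (1 : ℝ) / nm v else 0
  have hD0 : ∀ v, 0 ≤ gD v := by
    intro v
    show 0 ≤ (if Spl K M v.asIdeal ∧ Unr K M' v.asIdeal ∧ ¬ Spl K M' v.asIdeal then
      (1 : ℝ) / nm v else 0)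
    split_ifs
    · positivity
    · exact le_rfl
  have sD : Summable gD := by
    refine (Function.Injective.summable_iff
      (Subtype.val_injective (p := fun v : HeightOneSpectrum (𝓞 K) =>
        Spl K M v.asIdeal ∧ Unr K M' v.asIdeal ∧ ¬ Spl K M' v.asIdeal)) ?_).1 ?_
    · intro v hv
      exact if_neg fun hc => hv ⟨⟨v, hc⟩, rfl⟩
    · let ι : {v : HeightOneSpectrum (𝓞 K) // Spl K M v.asIdeal ∧ Unr K M' v.asIdeal ∧
          ¬ Spl K M' v.asIdeal} → {𝔭 : Ideal (𝓞 K) | 𝔭.IsPrime ∧ 𝔭 ≠ ⊥ ∧ Spl K M 𝔭 ∧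
          Unr K M' 𝔭 ∧ ¬ Spl K M' 𝔭} := fun v =>
        ⟨v.1.asIdeal, v.1.isPrime, v.1.ne_bot, v.2.1, v.2.2.1, v.2.2.2⟩
      have hι : Function.Injective ι := by
        intro a b hab
        apply Subtype.ext
        apply HeightOneSpectrum.ext
        exact congrArg Subtype.val hab
      refine (hs.comp_injective hι).congr fun v => ?_
      exact (if_pos v.2).symm
  let gE : HeightOneSpectrum (𝓞 K) → ℝ := fun v => if ¬ Unr K M' v.asIdeal then 1 else 0
  have hE0 : ∀ v, 0 ≤ gE v := by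
    intro v
    show 0 ≤ (if ¬ Unr K M' v.asIdeal then (1 : ℝ) else 0)
    split_ifs
    · exact le_rfl
    · exact zero_le_one
  have sE : Summable gE := by
    refine summable_of_hasFiniteSupport ((ram_finite K M').subset ?_)
    intro v hv
    by_contra hc
    exact hv (if_neg hc)
  have hle : ∀ x : ℝ, 1 < x → ∑' v, fS K M x v ≤ ∑' v, fS K N x v + (∑' v, gD v + ∑' v, gE v) := by
    intro x hx
    rw [← sD.tsum_add sE, ← (fS_summable K N hx).tsum_add (sD.add sE)]
    refine Summable.tsum_le_tsum ?_ (fS_summable K M hx) ((fS_summable K N hx).add (sD.add sE))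
    intro v
    have h2v : (2 : ℝ) ≤ nm v := by exact_mod_cast two_le_nm v
    by_cases h1 : Spl K M v.asIdeal
    · have e1 : fS K M x v = (nm v : ℝ) ^ (-x) := if_pos h1
      by_cases h2 : Spl K M' v.asIdeal
      · have h3 : Spl K N v.asIdeal := split_sup K M M' N hg v.asIdeal v.isPrime h1 h2
        have e2 : fS K N x v = (nm v : ℝ) ^ (-x) := if_pos h3
        rw [e1, e2]
        linarith [hD0 v, hE0 v]
      · by_cases h3 : Unr K M' v.asIdeal
        · have e3 : gD v = 1 / nm v := if_pos ⟨h1, h3, h2⟩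
          have e4 : (nm v : ℝ) ^ (-x) ≤ 1 / nm v := by
            rw [one_div, ← Real.rpow_neg_one]
            exact Real.rpow_le_rpow_of_exponent_le (by linarith) (by linarith)
          rw [e1]
          linarith [hE0 v, fS_nonneg K N x v]
        · have e3 : gE v = 1 := if_pos h3
          have e4 : (nm v : ℝ) ^ (-x) ≤ 1 :=
            Real.rpow_le_one_of_one_le_of_nonpos (by linarith) (by linarith)
          rw [e1]
          linarith [hD0 v, fS_nonneg K N x v]
    · have e1 : fS K M x v = 0 := if_neg h1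
      rw [e1]
      linarith [hD0 v, hE0 v, fS_nonneg K N x v]
  obtain ⟨C, hC⟩ := upper K M
  obtain ⟨C1, hC1⟩ := prime_sum_bdd (K := M)
  obtain ⟨C2, hC2⟩ := prime_sum_bdd (K := N)
  set B : ℝ := ∑' v, gD v + ∑' v, gE v with hB
  set m : ℝ := (Module.finrank K M : ℝ) with hm
  set n : ℝ := (Module.finrank K N : ℝ) with hn
  have hm0 : 0 < m := by
    rw [hm]
    exact_mod_cast (Module.finrank_pos (R := K) (M := M))
  have hmn : m + 1 ≤ n := by
    rw [hm, hn]
    exact_mod_cast hlt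
  set T : ℝ := m * C2 + m * n * B + n * (C + C1) with hT
  have hlam := Lam_tendsto.eventually (eventually_gt_atTop (max T 0))
  obtain ⟨x, hx1, hx2, hx3, hx⟩ := (hC1.and (hC2.and (hlam.and self_mem_nhdsWithin))).exists
  have hx' : 1 < x := hx
  have a1 := (abs_le.1 hx1).1
  have a2 := (abs_le.1 hx2).2
  have a3 := hC x hx'
  have a4 := hle x hx'
  have a5 := lower K N hx'
  have a6 : T < Lam x := lt_of_le_of_lt (le_max_left _ _) hx3
  have a7 : 0 < Lam x := lt_of_le_of_lt (le_max_right _ _) hx3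
  have b1 : Lam x ≤ m * ∑' v, fS K M x v + C + C1 := by linarith
  have b2 : m * ∑' v, fS K M x v ≤ m * (∑' v, fS K N x v + B) :=
    mul_le_mul_of_nonneg_left a4 hm0.le
  have b3 : n * Lam x ≤ n * (m * (∑' v, fS K N x v + B) + C + C1) :=
    mul_le_mul_of_nonneg_left (by linarith) (by linarith)
  have b4 : m * (n * ∑' v, fS K N x v) ≤ m * (Lam x + C2) :=
    mul_le_mul_of_nonneg_left (by linarith) hm0.le
  have b5 : (n - m) * Lam x ≤ T := by
    rw [hT]
    nlinarith
  have b6 : Lam x ≤ (n - m) * Lam x := by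
    nlinarith
  linarith

theorem t_BAU : S_BAU := by
  intro K Ω _ _ _ _ M M' hfM hfM' hGM hGM' hfr hne hs
  have hNM : NumberField M := NumberField.of_module_finite K M
  have hNM' : NumberField M' := NumberField.of_module_finite K M'
  have hfN : FiniteDimensional K (M ⊔ M' : IntermediateField K Ω) :=
    IntermediateField.finiteDimensional_sup M M'
  have hNN : NumberField (M ⊔ M' : IntermediateField K Ω) :=
    NumberField.of_module_finite K (M ⊔ M' : IntermediateField K Ω)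
  have hGN : IsGalois K (M ⊔ M' : IntermediateField K Ω) := by
    have : Normal K (M ⊔ M' : IntermediateField K Ω) := inferInstance
    exact ⟨⟩
  let a1 : Algebra M (M ⊔ M' : IntermediateField K Ω) :=
    (IntermediateField.inclusion (le_sup_left : M ≤ M ⊔ M')).toRingHom.toAlgebra
  let a2 : Algebra M' (M ⊔ M' : IntermediateField K Ω) :=
    (IntermediateField.inclusion (le_sup_right : M' ≤ M ⊔ M')).toRingHom.toAlgebra
  have s1 : IsScalarTower K M (M ⊔ M' : IntermediateField K Ω) :=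
    IsScalarTower.of_algebraMap_eq fun x => rfl
  have s2 : IsScalarTower K M' (M ⊔ M' : IntermediateField K Ω) :=
    IsScalarTower.of_algebraMap_eq fun x => rfl
  refine core K M M' (M ⊔ M' : IntermediateField K Ω) ?_ ?_ hs
  · intro σ h1 h2
    let F : IntermediateField K (M ⊔ M' : IntermediateField K Ω) :=
      IntermediateField.fixedField (Subgroup.zpowers σ)
    have hF : ∀ y : (M ⊔ M' : IntermediateField K Ω), y ∈ F ↔ σ y = y := by
      intro y
      rw [IntermediateField.mem_fixedField_iff]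
      constructor
      · intro h
        exact h σ (Subgroup.mem_zpowers σ)
      · intro h f hf
        have h3 : Subgroup.zpowers σ ≤ MulAction.stabilizer _ y :=
          Subgroup.zpowers_le.2 h
        exact h3 hf
    have hM : M ≤ F.map (M ⊔ M' : IntermediateField K Ω).val := by
      intro y hy
      exact ⟨⟨y, (le_sup_left : M ≤ M ⊔ M') hy⟩, (hF _).2 (h1 ⟨y, hy⟩), rfl⟩
    have hM' : M' ≤ F.map (M ⊔ M' : IntermediateField K Ω).val := by
      intro y hy
      exact ⟨⟨y, (le_sup_right : M' ≤ M ⊔ M') hy⟩, (hF _).2 (h2 ⟨y, hy⟩), rfl⟩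
    have hN := sup_le hM hM'
    apply AlgEquiv.ext
    intro y
    obtain ⟨z, hz, hzy⟩ := hN y.2
    have h3 : z = y := Subtype.ext hzy
    rw [← h3]
    exact (hF z).1 hz
  · by_contra hcon
    have h1 : Module.finrank K (M ⊔ M' : IntermediateField K Ω) ≤ Module.finrank K M :=
      not_lt.1 hcon
    have h2 : M = M ⊔ M' := IntermediateField.eq_of_le_of_finrank_le le_sup_left h1
    have h3 : M' = M ⊔ M' := IntermediateField.eq_of_le_of_finrank_le le_sup_right
      (by rw [← hfr]; exact h1)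
    exact hne (h2.trans h3.symm)

end Pool.Agent.H419.AC.BAU
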