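import Pool.Agent.H419.AC.Stm
import Pool.Agent.H419.RM.Fin

/-! # Local conditions at all primes: preparations -/

set_option autoImplicit false
set_option linter.unusedSectionVars false

open NumberField Filter Topology
open Pool.Agent.TH444.ML Pool.Agent.H419.LT Pool.Agent.H419.RM

namespace Pool.Agent.H419.AC

section ram

variable (K M : Type) [Field K] [NumberField K] [Field M] [NumberField M] [Algebra K M]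

theorem finite_ram : {𝔭 : Ideal (𝓞 K) | 𝔭.IsPrime ∧ 𝔭 ≠ ⊥ ∧ ¬ Unr K M 𝔭}.Finite := by
  classical
  have hf : {x : Ideal (𝓞 M) | x ∣ differentIdeal (𝓞 K) (𝓞 M)}.Finite := by
    have hi := UniqueFactorizationMonoid.fintypeSubtypeDvd (differentIdeal (𝓞 K) (𝓞 M))
      (differentIdeal_ne_bot)
    have hj : Finite {x : Ideal (𝓞 M) // x ∣ differentIdeal (𝓞 K) (𝓞 M)} :=
      Finite.of_fintype _
    exact Set.finite_coe_iff.1 hj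
  refine (hf.image (fun 𝔓 => 𝔓.comap (algebraMap (𝓞 K) (𝓞 M)))).subset ?_
  rintro 𝔭 ⟨hp, hp0, hr⟩
  have hmax : 𝔭.IsMaximal := hp.isMaximal hp0
  have hmap : 𝔭.map (algebraMap (𝓞 K) (𝓞 M)) ≠ ⊥ := Ideal.map_ne_bot_of_ne_bot hp0
  rw [Unr, TOW.red_iff _ hmap, squarefree_iff_no_irreducibles hmap] at hr
  push Not at hr
  obtain ⟨P, hP, hPP⟩ := hr
  have hPp : P.IsPrime := Ideal.isPrime_of_prime hP.prime
  have hle : 𝔭.map (algebraMap (𝓞 K) (𝓞 M)) ≤ P :=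
    Ideal.dvd_iff_le.1 ((dvd_mul_right P P).trans hPP)
  have hc : P.comap (algebraMap (𝓞 K) (𝓞 M)) = 𝔭 := by
    have h1 : 𝔭 ≤ P.comap (algebraMap (𝓞 K) (𝓞 M)) := Ideal.map_le_iff_le_comap.1 hle
    exact (hmax.eq_of_le (Ideal.IsPrime.ne_top (Ideal.comap_isPrime _ _)) h1).symm
  have hlo : P.LiesOver 𝔭 := ⟨hc.symm⟩
  refine ⟨P, ?_, hc⟩
  have h3 := pow_sub_one_dvd_differentIdeal (𝓞 K) P 2 hp0 (by rw [sq]; exact hPP)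
  simpa using h3

theorem finite_two' : {𝔭 : Ideal (𝓞 K) | 𝔭.IsPrime ∧ 𝔭 ≠ ⊥ ∧ (2 : 𝓞 K) ∈ 𝔭}.Finite :=
  finite_two (M := K)

/-- the primes of `K` below the primes which contain `α` -/
theorem finite_below (α : 𝓞 M) (hα : α ≠ 0) :
    {𝔭 : Ideal (𝓞 K) | ∃ 𝔓 : Ideal (𝓞 M), 𝔓.IsPrime ∧ α ∈ 𝔓 ∧
      𝔓.comap (algebraMap (𝓞 K) (𝓞 M)) = 𝔭 ∧ 𝔭 ≠ ⊥}.Finite := by
  classical
  have h0 : Ideal.span {α} ≠ (0 : Ideal (𝓞 M)) := by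
    rwa [Ne, Ideal.zero_eq_bot, Ideal.span_singleton_eq_bot]
  have hf : {x : Ideal (𝓞 M) | x ∣ Ideal.span {α}}.Finite := by
    have hi := UniqueFactorizationMonoid.fintypeSubtypeDvd (Ideal.span {α}) h0
    have hj : Finite {x : Ideal (𝓞 M) // x ∣ Ideal.span {α}} :=
      Finite.of_fintype _
    exact Set.finite_coe_iff.1 hj
  refine (hf.image (fun 𝔓 => 𝔓.comap (algebraMap (𝓞 K) (𝓞 M)))).subset ?_
  rintro 𝔭 ⟨𝔓, h1, h2, h3, h4⟩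
  refine ⟨𝔓, ?_, h3⟩
  show 𝔓 ∣ Ideal.span {α}
  rw [Ideal.dvd_iff_le, Ideal.span_singleton_le_iff_mem]
  exact h2

end ram

section fam

variable {K M : Type} [Field K] [NumberField K] [Field M] [NumberField M] [Algebra K M]

theorem ne_bot_of_comap {𝔭 : Ideal (𝓞 K)} (h0 : 𝔭 ≠ ⊥) {𝔓 : Ideal (𝓞 M)}
    (h : 𝔓.comap (algebraMap (𝓞 K) (𝓞 M)) = 𝔭) : 𝔓 ≠ ⊥ := by
  rintro rfl
  apply h0
  rw [eq_bot_iff]
  intro x hx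
  rw [← h, Ideal.mem_comap, Ideal.mem_bot,
    map_eq_zero_iff _ (FaithfulSMul.algebraMap_injective (𝓞 K) (𝓞 M))] at hx
  rw [hx]
  exact Ideal.zero_mem _

theorem fw_prime {𝔭 : Ideal (𝓞 K)} (h0 : 𝔭 ≠ ⊥) {I : Ideal (𝓞 M)} (hI : I ∈ Fw K M 𝔭)
    (𝔔 : Ideal (𝓞 M)) (h𝔔 : 𝔔.IsPrime) (hle : I ≤ 𝔔) :
    𝔔.comap (algebraMap (𝓞 K) (𝓞 M)) = 𝔭 := by
  rcases hI with ⟨𝔓, 𝔓', h1, h2, h3, h4, h5, rfl⟩ | ⟨h1, h2, h3⟩
  · have hm : 𝔓.IsMaximal := h1.isMaximal (ne_bot_of_comap h0 h4)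
    have hm' : 𝔓'.IsMaximal := h2.isMaximal (ne_bot_of_comap h0 h5)
    rcases (Ideal.IsPrime.mul_le h𝔔).1 hle with h | h
    · rw [← hm.eq_of_le h𝔔.ne_top h, h4]
    · rw [← hm'.eq_of_le h𝔔.ne_top h, h5]
  · have hm : I.IsMaximal := h1.isMaximal (ne_bot_of_comap h0 h2)
    rw [← hm.eq_of_le h𝔔.ne_top hle, h2]

theorem fw_ex {𝔭 : Ideal (𝓞 K)} {I : Ideal (𝓞 M)} (hI : I ∈ Fw K M 𝔭) :
    ∃ 𝔔 : Ideal (𝓞 M), 𝔔.IsPrime ∧ I ≤ 𝔔 := by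
  rcases hI with ⟨𝔓, 𝔓', h1, h2, h3, h4, h5, rfl⟩ | ⟨h1, h2, h3⟩
  · exact ⟨𝔓, h1, Ideal.mul_le_left⟩
  · exact ⟨I, h1, le_rfl⟩

theorem fw_ne_top {𝔭 : Ideal (𝓞 K)} {I : Ideal (𝓞 M)} (hI : I ∈ Fw K M 𝔭) : I ≠ ⊤ := by
  obtain ⟨𝔔, h1, h2⟩ := fw_ex hI
  rintro rfl
  exact h1.ne_top (top_le_iff.1 h2)

theorem fw_ne_bot {𝔭 : Ideal (𝓞 K)} (h0 : 𝔭 ≠ ⊥) {I : Ideal (𝓞 M)} (hI : I ∈ Fw K M 𝔭) :
    I ≠ ⊥ := by
  rcases hI with ⟨𝔓, 𝔓', h1, h2, h3, h4, h5, rfl⟩ | ⟨h1, h2, h3⟩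
  · exact mul_ne_zero (ne_bot_of_comap h0 h4) (ne_bot_of_comap h0 h5)
  · exact ne_bot_of_comap h0 h2

theorem fw_sqf {𝔭 : Ideal (𝓞 K)} (h0 : 𝔭 ≠ ⊥) {I : Ideal (𝓞 M)} (hI : I ∈ Fw K M 𝔭) :
    Squarefree I := by
  have hb := fw_ne_bot h0 hI
  rw [squarefree_iff_no_irreducibles hb]
  intro P hP hPP
  have hPp : P.IsPrime := Ideal.isPrime_of_prime hP.prime
  have hPm : P.IsMaximal := hPp.isMaximal hP.ne_zero
  rcases hI with ⟨𝔓, 𝔓', h1, h2, h3, h4, h5, rfl⟩ | ⟨h1, h2, h3⟩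
  · have hm : 𝔓.IsMaximal := h1.isMaximal (ne_bot_of_comap h0 h4)
    have hm' : 𝔓'.IsMaximal := h2.isMaximal (ne_bot_of_comap h0 h5)
    have hP1 : P ∣ 𝔓 * 𝔓' := (dvd_mul_right P P).trans hPP
    rcases hP.prime.dvd_or_dvd hP1 with h | h
    · have e : 𝔓 = P := hm.eq_of_le hPp.ne_top (Ideal.dvd_iff_le.1 h)
      rw [← e] at hPP hP
      have h6 : 𝔓 ∣ 𝔓' := (mul_dvd_mul_iff_left hP.ne_zero).1 hPP
      exact h3 (hm'.eq_of_le h1.ne_top (Ideal.dvd_iff_le.1 h6)).symm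
    · have e : 𝔓' = P := hm'.eq_of_le hPp.ne_top (Ideal.dvd_iff_le.1 h)
      rw [← e, mul_comm 𝔓] at hPP
      rw [← e] at hP
      have h6 : 𝔓' ∣ 𝔓 := (mul_dvd_mul_iff_left hP.ne_zero).1 hPP
      exact h3 (hm.eq_of_le h2.ne_top (Ideal.dvd_iff_le.1 h6))
  · have hm : I.IsMaximal := h1.isMaximal (ne_bot_of_comap h0 h2)
    have e : I = P := hm.eq_of_le hPp.ne_top (Ideal.dvd_iff_le.1 ((dvd_mul_right P P).trans hPP))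
    rw [← e] at hPP hP
    have h6 : I * I ∣ I * 1 := by rwa [mul_one]
    have h7 := (mul_dvd_mul_iff_left hP.ne_zero).1 h6
    exact hP.not_isUnit (isUnit_of_dvd_one h7)

/-- an element of all prime divisors is an element of the ideal -/
theorem fw_mem {𝔭 : Ideal (𝓞 K)} (h0 : 𝔭 ≠ ⊥) {I : Ideal (𝓞 M)} (hI : I ∈ Fw K M 𝔭) (β : 𝓞 M)
    (h : ∀ 𝔔 : Ideal (𝓞 M), 𝔔.IsPrime → I ≤ 𝔔 → β ∈ 𝔔) : β ∈ I := by
  rcases hI with ⟨𝔓, 𝔓', h1, h2, h3, h4, h5, rfl⟩ | ⟨h1, h2, h3⟩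
  · have hm : 𝔓.IsMaximal := h1.isMaximal (ne_bot_of_comap h0 h4)
    have hm' : 𝔓'.IsMaximal := h2.isMaximal (ne_bot_of_comap h0 h5)
    have hcop : IsCoprime 𝔓 𝔓' := by
      rw [Ideal.isCoprime_iff_sup_eq]
      exact hm.coprime_of_ne hm' h3
    rw [Ideal.mul_eq_inf_of_isCoprime hcop]
    exact ⟨h 𝔓 h1 Ideal.mul_le_left, h 𝔓' h2 Ideal.mul_le_right⟩
  · exact h I h1 le_rfl

end fam

/-- a system of conditions for algebras over `𝓞_K` -/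
abbrev Sys (K : Type) [Field K] : Type 1 :=
  Ideal (𝓞 K) → ∀ (R : Type) [CommRing R] [Algebra (𝓞 K) R], Prop

/-- the conditions are invariant under isomorphisms -/
def Inv {K : Type} [Field K] (P : Sys K) : Prop :=
  ∀ (𝔭 : Ideal (𝓞 K)) (R R' : Type) [CommRing R] [CommRing R'] [Algebra (𝓞 K) R]
    [Algebra (𝓞 K) R'], (R ≃ₐ[𝓞 K] R') → P 𝔭 R → P 𝔭 R'

/-- almost all conditions are weak -/
def Accept {K : Type} [Field K] [NumberField K] (P : Sys K) : Prop :=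
  ∃ S₀ : Set (Ideal (𝓞 K)), S₀.Finite ∧ ∀ 𝔭 : Ideal (𝓞 K), 𝔭.IsPrime → 𝔭 ≠ ⊥ → 𝔭 ∉ S₀ →
    ∀ (R : Type) [CommRing R] [Algebra (𝓞 K) R], Finite R →
      Nat.card (nilradical R) ≤ Ideal.absNorm 𝔭 → P 𝔭 R

theorem finite_loc (K L : Type) [Field K] [NumberField K] [Field L] [NumberField L] [Algebra K L]
    (𝔭 : Ideal (𝓞 K)) (h0 : 𝔭 ≠ ⊥) : Finite (𝓞 L ⧸ 𝔭.map (algebraMap (𝓞 K) (𝓞 L))) := by
  have hinj : Function.Injective (algebraMap (𝓞 K) (𝓞 L)) :=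
    FaithfulSMul.algebraMap_injective (𝓞 K) (𝓞 L)
  have h1 : 𝔭.map (algebraMap (𝓞 K) (𝓞 L)) ≠ ⊥ := by
    rwa [Ne, Ideal.map_eq_bot_iff_of_injective hinj]
  exact Ring.HasFiniteQuotients.finiteQuotient h1

/-- `L` satisfies the condition at `𝔭` -/
def At {K : Type} [Field K] (P : Sys K) (L : Type) [Field L] [Algebra K L] (𝔭 : Ideal (𝓞 K)) :
    Prop :=
  P 𝔭 (𝓞 L ⧸ 𝔭.map (algebraMap (𝓞 K) (𝓞 L)))

/-- `L` satisfies all conditions -/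
def All {K : Type} [Field K] (P : Sys K) (L : Type) [Field L] [Algebra K L] : Prop :=
  ∀ 𝔭 : Ideal (𝓞 K), 𝔭.IsPrime → 𝔭 ≠ ⊥ → At P L 𝔭

theorem at_ty {K L L' : Type} [Field K] [Field L] [Field L'] [Algebra K L] [Algebra K L']
    {P : Sys K} (hP : Inv P) {𝔭 : Ideal (𝓞 K)} (h : At P L 𝔭)
    (g : Ty K L' 𝔭 (𝓞 L ⧸ 𝔭.map (algebraMap (𝓞 K) (𝓞 L)))) : At P L' 𝔭 := by
  obtain ⟨g⟩ := g
  exact hP 𝔭 _ _ g.symm h

theorem at_iso {K L L' : Type} [Field K] [Field L] [Field L'] [Algebra K L] [Algebra K L']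
    {P : Sys K} (hP : Inv P) (e : L ≃ₐ[K] L') {𝔭 : Ideal (𝓞 K)} (h : At P L 𝔭) : At P L' 𝔭 :=
  at_ty hP h (ty_iso e ⟨AlgEquiv.refl⟩)

section det

variable {K M E : Type} [Field K] [NumberField K] [Field M] [NumberField M] [Field E]
  [Algebra K M] [Algebra M E] [Algebra K E] [IsScalarTower K M E] [IsAlgClosed E]

theorem locDet_at {P : Sys K} (hP : Inv P) (𝔭 : Ideal (𝓞 K)) (h𝔭 : 𝔭 ≠ ⊥) :
    LocDet M E (fun L : IntermediateField M E => At P L 𝔭) := by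
  intro 𝔠 h𝔠
  have hinj : Function.Injective (algebraMap (𝓞 K) (𝓞 M)) :=
    FaithfulSMul.algebraMap_injective (𝓞 K) (𝓞 M)
  have h0 : 𝔭.map (algebraMap (𝓞 K) (𝓞 M)) ≠ ⊥ := by
    rwa [Ne, Ideal.map_eq_bot_iff_of_injective hinj]
  refine ⟨Ideal.span {(4 : 𝓞 M)} * (𝔭.map (algebraMap (𝓞 K) (𝓞 M))) ^ 2 * 𝔠 ^ 2, ?_, ?_⟩
  · refine mul_ne_zero (mul_ne_zero ?_ (pow_ne_zero 2 h0)) (pow_ne_zero 2 h𝔠)
    rw [Ne, Ideal.zero_eq_bot, Ideal.span_singleton_eq_bot]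
    norm_num
  · intro α α' σ σ' hS _ hd hσ hσ' hn hn' hT
    obtain ⟨s, m, hs, hm, ht, h⟩ := exists_s_m _ 𝔠 h0 h𝔠 hS hd
    exact at_ty hP hT (ty_adj TYG.t_TYG 𝔭 _ hσ hσ' hn hn' s m 1 hs hm ht h ⟨AlgEquiv.refl⟩)

theorem locDet_atf {P : Sys K} (hP : Inv P) (F : Finset (Ideal (𝓞 K))) (hF : ∀ 𝔭 ∈ F, 𝔭 ≠ ⊥) :
    LocDet M E (fun L : IntermediateField M E => ∀ 𝔭 ∈ F, At P L 𝔭) := by
  classical
  induction F using Finset.induction_on with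
  | empty =>
    have h := locDet_true (M := M) (E := E)
    have e : (fun L : IntermediateField M E => ∀ 𝔭 ∈ (∅ : Finset (Ideal (𝓞 K))), At P L 𝔭) =
        fun _ => True := by
      funext L
      simp
    rw [e]
    exact h
  | insert 𝔭 F₁ hn ih =>
    have h := locDet_and (locDet_at (M := M) (E := E) hP 𝔭 (hF 𝔭 (Finset.mem_insert_self _ _)))
      (ih fun 𝔔 h𝔔 => hF 𝔔 (Finset.mem_insert_of_mem h𝔔))
    have e : (fun L : IntermediateField M E => ∀ 𝔔 ∈ insert 𝔭 F₁, At P L 𝔔) =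
        fun L : IntermediateField M E => At P L 𝔭 ∧ ∀ 𝔔 ∈ F₁, At P L 𝔔 := by
      funext L
      simp
    rw [e]
    exact h

end det

end Pool.Agent.H419.AC
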