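import Pool.Agent.H419.AC.Stm
import Pool.Agent.H419.RM.TOW

set_option autoImplicit false

/-! `AC-NIL`: the nilradical of `𝓞_L / 𝔭 𝓞_L` for a quadratic extension `L / M`. -/

open NumberField
open Pool.Agent.H419.RM Pool.Agent.H419.RM.TOW

namespace Pool.Agent.H419.AC.NIL

/-- squarefree ideals stay squarefree, if the extension is unramified at their prime divisors -/
theorem sq_map {A B : Type} [CommRing A] [IsDedekindDomain A] [CommRing B] [IsDedekindDomain B]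
    [Algebra A B] (hinj : Function.Injective (algebraMap A B)) (I : Ideal A) (hI0 : I ≠ ⊥)
    (hI : Squarefree I)
    (h : ∀ P : Ideal A, P.IsPrime → I ≤ P → Squarefree (P.map (algebraMap A B))) :
    Squarefree (I.map (algebraMap A B)) := by
  have hJ0 : I.map (algebraMap A B) ≠ ⊥ := by
    rw [Ne, Ideal.map_eq_bot_iff_of_injective hinj]
    exact hI0
  rw [squarefree_iff_no_irreducibles hJ0]
  intro Q hQ hQQ
  have hQp : Q.IsPrime := Ideal.isPrime_of_prime hQ.prime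
  obtain ⟨P, hPdef⟩ : ∃ P, P = Q.comap (algebraMap A B) := ⟨_, rfl⟩
  have hPp : P.IsPrime := by
    rw [hPdef]
    exact Ideal.comap_isPrime _ _
  have hIP : I ≤ P := by
    rw [hPdef, ← Ideal.map_le_iff_le_comap, ← Ideal.dvd_iff_le]
    exact (dvd_mul_right Q Q).trans hQQ
  have hsq := h P hPp hIP
  obtain ⟨b, hb⟩ : P ∣ I := Ideal.dvd_iff_le.2 hIP
  have hPb : ¬ P ∣ b := by
    rintro ⟨c, hc⟩
    have h3 : P * P ∣ I := ⟨c, by rw [hb, hc, mul_assoc]⟩
    have h4 := hI P h3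
    rw [Ideal.isUnit_iff] at h4
    exact hPp.ne_top h4
  have hQb : ¬ Q ∣ b.map (algebraMap A B) := by
    intro h3
    apply hPb
    rw [Ideal.dvd_iff_le] at h3 ⊢
    rw [hPdef, ← Ideal.map_le_iff_le_comap]
    exact h3
  have h5 : Q ^ 2 ∣ P.map (algebraMap A B) * b.map (algebraMap A B) := by
    rw [← Ideal.map_mul, ← hb, pow_two]
    exact hQQ
  have h6 := hQ.prime.pow_dvd_of_dvd_mul_right 2 hQb h5
  rw [pow_two] at h6
  exact hQ.not_isUnit (hsq Q h6)

/-- the index of the nilradical is at least the cardinality of the residue field -/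
theorem nil_card {A B : Type} [CommRing A] [CommRing B] [Algebra A B] (P : Ideal A)
    (hP : P.IsMaximal) (J : Ideal B) (hJ : P.map (algebraMap A B) ≤ J) [Finite (B ⧸ J)]
    (hne : J ≠ ⊤) :
    Nat.card (nilradical (B ⧸ J)) * Nat.card (A ⧸ P) ≤ Nat.card (B ⧸ J) := by
  have : Nontrivial (B ⧸ J) := Ideal.Quotient.nontrivial_iff.2 hne
  have hN : nilradical (B ⧸ J) ≠ ⊤ := by
    intro h
    have h1 : (1 : B ⧸ J) ∈ nilradical (B ⧸ J) := by
      rw [h]
      trivial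
    rw [mem_nilradical] at h1
    obtain ⟨n, hn⟩ := h1
    rw [one_pow] at hn
    exact one_ne_zero hn
  have : Nontrivial ((B ⧸ J) ⧸ nilradical (B ⧸ J)) := Ideal.Quotient.nontrivial_iff.2 hN
  have : Finite ((B ⧸ J) ⧸ nilradical (B ⧸ J)) := Quotient.finite _
  let _ : Field (A ⧸ P) := Ideal.Quotient.field P
  let g : A ⧸ P →+* ((B ⧸ J) ⧸ nilradical (B ⧸ J)) :=
    Ideal.Quotient.lift P ((Ideal.Quotient.mk (nilradical (B ⧸ J))).comp
      ((Ideal.Quotient.mk J).comp (algebraMap A B))) (by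
        intro a ha
        have h1 : algebraMap A B a ∈ J := hJ (Ideal.mem_map_of_mem _ ha)
        rw [RingHom.comp_apply, RingHom.comp_apply, Ideal.Quotient.eq_zero_iff_mem.2 h1, map_zero])
  have hg : Function.Injective g := RingHom.injective g
  have h2 : Nat.card (A ⧸ P) ≤ Nat.card ((B ⧸ J) ⧸ nilradical (B ⧸ J)) :=
    Nat.card_le_card_of_injective g hg
  have h3 : Nat.card (B ⧸ J) = Nat.card (nilradical (B ⧸ J)) *
      Nat.card ((B ⧸ J) ⧸ nilradical (B ⧸ J)) :=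
    Submodule.card_eq_card_quotient_mul_card (R := B ⧸ J) (nilradical (B ⧸ J))
  rw [h3]
  exact Nat.mul_le_mul_left _ h2

/-- a coprime radical factor does not change the nilradical -/
theorem nil_inj {B : Type} [CommRing B] (J J1 J2 : Ideal B) (hJ : J = J1 ⊓ J2)
    (h2 : J2.IsRadical) [Finite (B ⧸ J1)] :
    Nat.card (nilradical (B ⧸ J)) ≤ Nat.card (nilradical (B ⧸ J1)) := by
  have hle : J ≤ J1 := by
    rw [hJ]
    exact inf_le_left
  let f : B ⧸ J →+* B ⧸ J1 := Ideal.Quotient.factor hle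
  have hf : ∀ x ∈ nilradical (B ⧸ J), f x ∈ nilradical (B ⧸ J1) := by
    intro x hx
    rw [mem_nilradical] at hx ⊢
    exact hx.map f
  let F : nilradical (B ⧸ J) → nilradical (B ⧸ J1) := fun x => ⟨f x.1, hf x.1 x.2⟩
  have hker : ∀ z ∈ nilradical (B ⧸ J), f z = 0 → z = 0 := by
    intro z hz hz0
    obtain ⟨w, rfl⟩ := Ideal.Quotient.mk_surjective z
    rw [mem_nilradical] at hz
    obtain ⟨n, hn⟩ := hz
    rw [← map_pow, Ideal.Quotient.eq_zero_iff_mem] at hn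
    have hw1 : w ∈ J1 := by
      rw [← Ideal.Quotient.eq_zero_iff_mem]
      exact hz0
    have hw2 : w ∈ J2 := by
      apply h2
      refine ⟨n, ?_⟩
      rw [hJ] at hn
      exact hn.2
    rw [Ideal.Quotient.eq_zero_iff_mem, hJ]
    exact ⟨hw1, hw2⟩
  have hF : Function.Injective F := by
    intro x y hxy
    apply Subtype.ext
    have h3 : f x.1 = f y.1 := congrArg Subtype.val hxy
    have h4 := hker (x.1 - y.1) (Ideal.sub_mem _ x.2 y.2) (by rw [map_sub, h3, sub_self])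
    exact sub_eq_zero.1 h4
  exact Nat.card_le_card_of_injective F hF

theorem t_NIL : S_NIL := by
  intro K M L _ _ _ _ _ _ _ _ _ _ 𝔭 hp hp0 hdeg hU hS
  by_contra hcon
  have hcon' : ∀ I ∈ Fw K M 𝔭, ¬ Rm M L I := fun I hI h => hcon ⟨I, hI, h⟩
  apply hS
  have hKM : Function.Injective (algebraMap (𝓞 K) (𝓞 M)) :=
    RingOfIntegers.algebraMap.injective K M
  have hML : Function.Injective (algebraMap (𝓞 M) (𝓞 L)) :=
    RingOfIntegers.algebraMap.injective M L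
  have hJ : 𝔭.map (algebraMap (𝓞 K) (𝓞 L)) =
      (𝔭.map (algebraMap (𝓞 K) (𝓞 M))).map (algebraMap (𝓞 M) (𝓞 L)) := by
    rw [Ideal.map_map, ← IsScalarTower.algebraMap_eq]
  obtain ⟨I, hI⟩ : ∃ I, I = 𝔭.map (algebraMap (𝓞 K) (𝓞 M)) := ⟨_, rfl⟩
  have hI0 : I ≠ ⊥ := by
    rw [hI, Ne, Ideal.map_eq_bot_iff_of_injective hKM]
    exact hp0
  have hN0 : Ideal.absNorm 𝔭 ≠ 0 := by
    rw [Ne, Ideal.absNorm_eq_zero_iff]
    exact hp0
  by_cases hall : ∀ 𝔓 : Ideal (𝓞 M), 𝔓.IsPrime →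
      𝔓.comap (algebraMap (𝓞 K) (𝓞 M)) = 𝔭 → Unr M L 𝔓
  · have hred : Unr K L 𝔭 := (t_TOW K M L 𝔭 hp hp0).2 ⟨hU, hall⟩
    have hred' : IsReduced (𝓞 L ⧸ 𝔭.map (algebraMap (𝓞 K) (𝓞 L))) := hred
    have h0 : nilradical (𝓞 L ⧸ 𝔭.map (algebraMap (𝓞 K) (𝓞 L))) = ⊥ := nilradical_eq_zero _
    show Nat.card (nilradical (𝓞 L ⧸ 𝔭.map (algebraMap (𝓞 K) (𝓞 L)))) ≤ Ideal.absNorm 𝔭
    rw [h0]
    have h1 : Nat.card (⊥ : Ideal (𝓞 L ⧸ 𝔭.map (algebraMap (𝓞 K) (𝓞 L)))) = 1 := Nat.card_unique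
    rw [h1]
    omega
  · have hex : ∃ P : Ideal (𝓞 M), P.IsPrime ∧ P.comap (algebraMap (𝓞 K) (𝓞 M)) = 𝔭 ∧
        ¬ Unr M L P := by
      by_contra hc
      apply hall
      intro P h1 h2
      by_contra h3
      exact hc ⟨P, h1, h2, h3⟩
    obtain ⟨P, hP, hPc, hram⟩ := hex
    have hle : ∀ Q : Ideal (𝓞 M), Q.comap (algebraMap (𝓞 K) (𝓞 M)) = 𝔭 → I ≤ Q := by
      intro Q hQ
      rw [hI, Ideal.map_le_iff_le_comap, hQ]
    have hne : ∀ Q : Ideal (𝓞 M), I ≤ Q → Q ≠ ⊥ := by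
      intro Q hQ h0
      rw [h0, le_bot_iff] at hQ
      exact hI0 hQ
    have hIP : I ≤ P := hle P hPc
    have hP0 : P ≠ ⊥ := hne P hIP
    have hPm : P.IsMaximal := hP.isMaximal hP0
    -- the norm of P
    have hnorm : Ideal.absNorm P ≤ Ideal.absNorm 𝔭 := by
      by_contra hc
      refine hcon' P (Or.inr ⟨hP, hPc, not_le.1 hc⟩) ?_
      intro Q hQ hPQ
      rw [← hPm.eq_of_le hQ.ne_top hPQ]
      exact hram
    -- the other primes
    have hoth : ∀ Q : Ideal (𝓞 M), Q.IsPrime → Q.comap (algebraMap (𝓞 K) (𝓞 M)) = 𝔭 → Q ≠ P →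
        Unr M L Q := by
      intro Q hQ hQc hQP
      by_contra hc
      refine hcon' (P * Q) (Or.inl ⟨P, Q, hP, hQ, hQP.symm, hPc, hQc, rfl⟩) ?_
      intro R hR hPQR
      have hQm : Q.IsMaximal := hQ.isMaximal (hne Q (hle Q hQc))
      rcases (Ideal.IsPrime.mul_le hR).1 hPQR with h1 | h1
      · rw [← hPm.eq_of_le hR.ne_top h1]
        exact hram
      · rw [← hQm.eq_of_le hR.ne_top h1]
        exact hc
    -- the decomposition
    have hIs : Squarefree I := by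
      have h1 : IsReduced (𝓞 M ⧸ 𝔭.map (algebraMap (𝓞 K) (𝓞 M))) := hU
      rw [← hI, red_iff _ hI0] at h1
      exact h1
    obtain ⟨B, hB⟩ : P ∣ I := Ideal.dvd_iff_le.2 hIP
    have hB0 : B ≠ ⊥ := by
      intro h0
      apply hI0
      rw [hB, h0, Ideal.mul_bot]
    have hBs : Squarefree B := hIs.squarefree_of_dvd ⟨P, by rw [hB, mul_comm]⟩
    have hPB : ¬ B ≤ P := by
      intro h1
      obtain ⟨c, hc⟩ := Ideal.dvd_iff_le.2 h1
      have h3 : P * P ∣ I := ⟨c, by rw [hB, hc, mul_assoc]⟩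
      have h4 := hIs P h3
      rw [Ideal.isUnit_iff] at h4
      exact hP.ne_top h4
    have hIB : I ≤ B := by
      rw [hB]
      exact Ideal.mul_le_right (I := P) (J := B)
    have hcop : P ⊔ B = ⊤ := by
      apply hPm.out.2
      refine lt_of_le_of_ne le_sup_left ?_
      intro h1
      apply hPB
      rw [h1]
      exact le_sup_right
    have hJ12 : 𝔭.map (algebraMap (𝓞 K) (𝓞 L)) =
        P.map (algebraMap (𝓞 M) (𝓞 L)) ⊓ B.map (algebraMap (𝓞 M) (𝓞 L)) := by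
      rw [hJ, ← hI, hB, Ideal.map_mul]
      apply Ideal.mul_eq_inf_of_coprime
      rw [← Ideal.map_sup, hcop, Ideal.map_top]
    have hm : 𝔭.IsMaximal := hp.isMaximal hp0
    have hBm : Squarefree (B.map (algebraMap (𝓞 M) (𝓞 L))) := by
      apply sq_map hML B hB0 hBs
      intro Q hQ hBQ
      have hIQ : I ≤ Q := hIB.trans hBQ
      have hQc : Q.comap (algebraMap (𝓞 K) (𝓞 M)) = 𝔭 := by
        symm
        apply hm.eq_of_le
        · exact (Ideal.comap_isPrime (algebraMap (𝓞 K) (𝓞 M)) Q).ne_top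
        · rw [← Ideal.map_le_iff_le_comap, ← hI]
          exact hIQ
      have hQP : Q ≠ P := by
        intro h1
        apply hPB
        rw [← h1]
        exact hBQ
      have h1 : IsReduced (𝓞 L ⧸ Q.map (algebraMap (𝓞 M) (𝓞 L))) := hoth Q hQ hQc hQP
      rw [red_iff] at h1
      · exact h1
      · rw [Ne, Ideal.map_eq_bot_iff_of_injective hML]
        exact hne Q hIQ
    have hBL0 : B.map (algebraMap (𝓞 M) (𝓞 L)) ≠ ⊥ := by
      rw [Ne, Ideal.map_eq_bot_iff_of_injective hML]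
      exact hB0
    have hBr : (B.map (algebraMap (𝓞 M) (𝓞 L))).IsRadical := by
      rw [Ideal.isRadical_iff_quotient_reduced, red_iff _ hBL0]
      exact hBm
    have hPL0 : P.map (algebraMap (𝓞 M) (𝓞 L)) ≠ ⊥ := by
      rw [Ne, Ideal.map_eq_bot_iff_of_injective hML]
      exact hP0
    have hfin : Finite (𝓞 L ⧸ P.map (algebraMap (𝓞 M) (𝓞 L))) :=
      Ideal.finiteQuotientOfFreeOfNeBot _ hPL0
    have hcardP : Nat.card (𝓞 M ⧸ P) = Ideal.absNorm P := by
      rw [Ideal.absNorm_apply, Submodule.cardQuot_apply]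
    have hcardL : Nat.card (𝓞 L ⧸ P.map (algebraMap (𝓞 M) (𝓞 L))) = Ideal.absNorm P ^ 2 := by
      rw [← hdeg, IsFractionRing.finrank_eq (𝓞 M) M (𝓞 L) L, ← Ideal.absNorm_algebraMap,
        Ideal.absNorm_apply, Submodule.cardQuot_apply]
    have hNP : Ideal.absNorm P ≠ 0 := by
      rw [Ne, Ideal.absNorm_eq_zero_iff]
      exact hP0
    have hPL1 : P.map (algebraMap (𝓞 M) (𝓞 L)) ≠ ⊤ := by
      intro h1
      obtain ⟨Q, hQ, hQP⟩ := Ideal.exists_maximal_ideal_liesOver_of_isIntegral (S := 𝓞 L) P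
      apply hQ.ne_top
      rw [eq_top_iff, ← h1, Ideal.map_le_iff_le_comap]
      exact hQP.over.le
    have h1 := nil_inj _ _ _ hJ12 hBr
    have h2 := nil_card P hPm (P.map (algebraMap (𝓞 M) (𝓞 L))) le_rfl hPL1
    rw [hcardP, hcardL, pow_two] at h2
    have h3 : Nat.card (nilradical (𝓞 L ⧸ P.map (algebraMap (𝓞 M) (𝓞 L)))) ≤ Ideal.absNorm P :=
      Nat.le_of_mul_le_mul_right h2 (Nat.pos_of_ne_zero hNP)
    exact h1.trans (h3.trans hnorm)

end Pool.Agent.H419.AC.NIL
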