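import Pool.Agent.H419.AC.Stm
import Pool.Agent.H419.RM.POSI

/-! # Quadratic extensions with a property and a set of excluded ideals: the limit is positive -/

set_option autoImplicit false

open NumberField Filter Topology
open Pool.Agent.TH444.ML Pool.Agent.H419.LT

namespace Pool.Agent.H419.AC.POSII

open Pool.Agent.TH858.J3094 Pool.Agent.H419.LT.POSP Pool.Agent.H419.RM.POSI

theorem posi (h1 : DiscQuad) (h2 : KumP) (h3 : QuadUnif) (hcf : ConeFacts) (hc : S_BGDI) :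
    S_POSII := by
  intro M E _ _ _ _ _ T α₀ 𝔫 W hα0 hn0 hWp hWs hT hlim
  obtain ⟨𝔡₀, 𝔠₀, h0, hc0, hα⟩ := exists_dec (Ideal.span {α₀}) (by simpa using hα0)
  obtain ⟨δ, hδ, hδl⟩ := hc M (𝔫 * 𝔡₀) W (mul_ne_zero hn0 h0.ne_zero) hWp hWs
  obtain ⟨C0, hC0⟩ := h3 (Module.finrank ℚ M)
  set C1 : ℝ := C0 * ((|discr M| : ℤ) : ℝ) ^ (7 / 4 : ℝ) with hC1
  have hn : ∀ Y : ℝ, 0 ≤ Y →
      (({L : IntermediateField M E | L ∈ QS M E Y ∧ T L}).ncard : ℝ) ≤ C1 * Y := by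
    intro Y hY
    refine le_trans ?_ (hC0 M E rfl Y hY).2
    have hs : {L : IntermediateField M E | L ∈ QS M E Y ∧ T L} ⊆ QS M E Y := fun _ h => h.1
    exact_mod_cast Set.ncard_le_ncard hs (hC0 M E rfl Y hY).1
  have hC1' : 0 ≤ C1 := by
    have := hn 1 zero_le_one
    have h0 : (0 : ℝ) ≤ (({L : IntermediateField M E | L ∈ QS M E 1 ∧ T L}).ncard : ℝ) :=
      Nat.cast_nonneg _
    linarith
  set w : ℝ := (Units.torsionOrder M : ℝ) with hw
  have hwpos : 0 < w := by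
    rw [hw]; exact_mod_cast Units.torsionOrder_pos M
  have hcn : (0 : ℝ) < (Ideal.absNorm 𝔠₀ : ℝ) ^ 2 := by
    have := norm_pos M ⟨𝔠₀, hc0⟩
    positivity
  have hnα : 0 < nrm α₀ := by
    rw [nrm_eq]
    have := norm_pos M ⟨Ideal.span {α₀}, by simpa using hα0⟩
    positivity
  set D : ℝ := 4 ^ Module.finrank ℚ M * nrm α₀ / (Ideal.absNorm 𝔠₀ : ℝ) ^ 2 with hD
  have hDpos : 0 < D := by positivity
  have hDe : ∀ (Z : ℝ) (𝔢 : NZ M), 4 ^ Module.finrank ℚ M * (nrm α₀ * Z) /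
      (Ideal.absNorm (𝔠₀ * 𝔢.1) : ℝ) ^ 2 = D * Z / (Ideal.absNorm 𝔢.1 : ℝ) ^ 2 := by
    intro Z 𝔢
    have he : (0 : ℝ) < (Ideal.absNorm 𝔢.1 : ℝ) ^ 2 := by
      have := norm_pos M 𝔢
      positivity
    rw [hD, map_mul]
    push_cast
    field_simp
  let F : ℝ → NZ M → ℝ := fun Z 𝔢 => if (Ideal.absNorm 𝔢.1 : ℝ) ^ 2 ≤ Z then
    w * ((1 + (({L : IntermediateField M E | L ∈ QS M E (D * Z / (Ideal.absNorm 𝔢.1 : ℝ) ^ 2) ∧
      T L}).ncard : ℝ)) / Z) else 0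
  have hTT : Tendsto (fun Z => ∑' 𝔢, F Z 𝔢) atTop (𝓝 (∑' _ : NZ M, (0 : ℝ))) := by
    refine tendsto_tsum_of_dominated_convergence
      (bound := fun 𝔢 : NZ M => w * ((1 + C1 * D) * (1 / (Ideal.absNorm 𝔢.1 : ℝ) ^ 2)))
      (((summable_inv_sq M).mul_left _).mul_left _) ?_ ?_
    · intro 𝔢
      have he : (0 : ℝ) < (Ideal.absNorm 𝔢.1 : ℝ) ^ 2 := by
        have := norm_pos M 𝔢
        positivity
      have hc : Tendsto (fun Z : ℝ => (D / (Ideal.absNorm 𝔢.1 : ℝ) ^ 2) * Z) atTop atTop :=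
        Tendsto.const_mul_atTop (by positivity) tendsto_id
      have h5 := (hlim.comp hc).const_mul (D / (Ideal.absNorm 𝔢.1 : ℝ) ^ 2)
      have h6 := ((tendsto_inv_atTop_zero (𝕜 := ℝ)).add h5).const_mul w
      rw [mul_zero, add_zero, mul_zero] at h6
      refine h6.congr' ?_
      filter_upwards [eventually_ge_atTop ((Ideal.absNorm 𝔢.1 : ℝ) ^ 2), eventually_gt_atTop 0] with Z hZ hZ0
      show w * (Z⁻¹ + D / (Ideal.absNorm 𝔢.1 : ℝ) ^ 2 *
        ((({L : IntermediateField M E | L ∈ QS M E (D / (Ideal.absNorm 𝔢.1 : ℝ) ^ 2 * Z) ∧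
          T L}).ncard : ℝ) / (D / (Ideal.absNorm 𝔢.1 : ℝ) ^ 2 * Z))) = F Z 𝔢
      simp only [F]
      rw [if_pos hZ]
      have h7 : D / (Ideal.absNorm 𝔢.1 : ℝ) ^ 2 * Z = D * Z / (Ideal.absNorm 𝔢.1 : ℝ) ^ 2 := by ring
      rw [h7]
      rw [aux D _ Z _ hDpos he hZ0]
    · filter_upwards [eventually_gt_atTop 0] with Z hZ 𝔢
      have he : (0 : ℝ) < (Ideal.absNorm 𝔢.1 : ℝ) ^ 2 := by
        have := norm_pos M 𝔢
        positivity
      simp only [F]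
      split_ifs with h
      · rw [Real.norm_of_nonneg (by positivity)]
        refine mul_le_mul_of_nonneg_left ?_ hwpos.le
        have h8 := hn (D * Z / (Ideal.absNorm 𝔢.1 : ℝ) ^ 2) (by positivity)
        rw [div_le_iff₀ hZ]
        have h9 : (1 : ℝ) ≤ 1 / (Ideal.absNorm 𝔢.1 : ℝ) ^ 2 * Z := by
          rw [one_div, inv_mul_eq_div, le_div_iff₀ he]; linarith
        calc (1 : ℝ) + (({L : IntermediateField M E | L ∈ QS M E (D * Z /
            (Ideal.absNorm 𝔢.1 : ℝ) ^ 2) ∧ T L}).ncard : ℝ) ≤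
            1 / (Ideal.absNorm 𝔢.1 : ℝ) ^ 2 * Z + C1 * (D * Z / (Ideal.absNorm 𝔢.1 : ℝ) ^ 2) :=
              add_le_add h9 h8
          _ = _ := by ring
      · rw [norm_zero]; positivity
  rw [tsum_zero] at hTT
  have hle : ∀ᶠ Z : ℝ in atTop, ((BB M (𝔫 * 𝔡₀) W Z).ncard : ℝ) / Z ≤ ∑' 𝔢, F Z 𝔢 := by
    filter_upwards [eventually_gt_atTop 0] with Z hZ
    rw [tsum_eq_sum (s := (T_fin M Z).toFinset)]
    · rw [div_le_iff₀ hZ, Finset.sum_mul]
      refine (BB_card T h1 h2 h3 hcf h0 hc0 hα0 hα hT Z hZ.le).trans (le_of_eq ?_)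
      refine Finset.sum_congr rfl fun 𝔢 he => ?_
      rw [Set.Finite.mem_toFinset] at he
      simp only [F]
      rw [if_pos (show (Ideal.absNorm 𝔢.1 : ℝ) ^ 2 ≤ Z from he), hDe, mul_assoc,
        div_mul_cancel₀ _ hZ.ne']
    · intro 𝔢 he
      rw [Set.Finite.mem_toFinset] at he
      simp only [F]
      exact if_neg he
  have hle' : ∀ᶠ Z : ℝ in atTop, δ ≤ ∑' 𝔢, F Z 𝔢 := by
    filter_upwards [hle, hδl, eventually_gt_atTop 0] with Z h5 h6 h7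
    refine le_trans ?_ h5
    rw [le_div_iff₀ h7]
    exact h6
  have hfinal := ge_of_tendsto hTT hle'
  exact absurd hfinal (not_le.mpr hδ)

/-- POSII from BGDI. -/
theorem t_POSII (h : S_BGDI) : S_POSII :=
  posi Pool.Agent.TH263.J3086.discQuad Pool.Agent.TH914.J3087.kumP Pool.Agent.TH444.ML.quadUnif
    Pool.Agent.TH938.J3088.coneFacts h

end Pool.Agent.H419.AC.POSII
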