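import Pool.Agent.H419.AC.Stm
import Pool.Graph.R_seed8.TH858.J3094

/-! # The sum over the products of two primes above the same prime converges -/

set_option autoImplicit false

open NumberField
open Pool.Agent.H419.RM

namespace Pool.Agent.H419.AC.SPF

section facts

variable (K M : Type) [Field K] [NumberField K] [Field M] [NumberField M] [Algebra K M]

theorem norm_over (𝔭 : Ideal (𝓞 K)) (hp : 𝔭.IsPrime) (hp0 : 𝔭 ≠ ⊥) (𝔓 : Ideal (𝓞 M))
    (hP : 𝔓.IsPrime) (hover : 𝔓.comap (algebraMap (𝓞 K) (𝓞 M)) = 𝔭) :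
    ∃ f : ℕ, 0 < f ∧ Ideal.absNorm 𝔓 = Ideal.absNorm 𝔭 ^ f := by
  have hlo : 𝔓.LiesOver 𝔭 := ⟨hover.symm⟩
  have hmax : 𝔭.IsMaximal := hp.isMaximal hp0
  exact ⟨𝔓.inertiaDeg (𝓞 K), Ideal.inertiaDeg_pos 𝔓 (𝓞 K),
    (Ideal.absNorm_pow_inertiaDeg 𝔭 𝔓).symm⟩

theorem over_bound (𝔭 : Ideal (𝓞 K)) (hp : 𝔭.IsPrime) (hp0 : 𝔭 ≠ ⊥) :
    (𝔭.primesOver (𝓞 M)).Finite ∧
      (𝔭.primesOver (𝓞 M)).ncard ≤ Module.finrank K M := by
  have hmax : 𝔭.IsMaximal := hp.isMaximal hp0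
  have e : 𝔭.primesOver (𝓞 M) =
      ((IsDedekindDomain.primesOverFinset 𝔭 (𝓞 M) : Finset (Ideal (𝓞 M))) : Set (Ideal (𝓞 M))) := by
    ext P
    rw [Finset.mem_coe, IsDedekindDomain.mem_primesOverFinset_iff hp0]
  rw [e]
  refine ⟨Finset.finite_toSet _, ?_⟩
  rw [Set.ncard_coe_finset]
  have hz : NoZeroSMulDivisors (𝓞 K) (𝓞 M) := by
    refine ⟨fun {c x} h => ?_⟩
    rw [Algebra.smul_def, mul_eq_zero] at h
    rcases h with h | h
    · left
      exact (FaithfulSMul.algebraMap_injective (𝓞 K) (𝓞 M)) (by rw [h, map_zero])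
    · exact Or.inr h
  exact Ideal.card_primesOverFinset_le_finrank (𝓞 M) K M hp0

theorem fw_bound (𝔭 : Ideal (𝓞 K)) (hp : 𝔭.IsPrime) (hp0 : 𝔭 ≠ ⊥) :
    (Fw K M 𝔭).Finite ∧
      (Fw K M 𝔭).ncard ≤ Module.finrank K M * Module.finrank K M + Module.finrank K M := by
  obtain ⟨hfin, hcard⟩ := over_bound K M 𝔭 hp hp0
  have hsub : Fw K M 𝔭 ⊆ (fun x : Ideal (𝓞 M) × Ideal (𝓞 M) => x.1 * x.2) ''
      ((𝔭.primesOver (𝓞 M)) ×ˢ (𝔭.primesOver (𝓞 M))) ∪ 𝔭.primesOver (𝓞 M) := by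
    rintro I (⟨P, P', h1, h2, -, h4, h5, rfl⟩ | ⟨h1, h2, -⟩)
    · exact Or.inl ⟨(P, P'), ⟨⟨h1, ⟨h4.symm⟩⟩, ⟨h2, ⟨h5.symm⟩⟩⟩, rfl⟩
    · exact Or.inr ⟨h1, ⟨h2.symm⟩⟩
  have hf2 := (hfin.prod hfin)
  have hf3 := (hf2.image (fun x : Ideal (𝓞 M) × Ideal (𝓞 M) => x.1 * x.2)).union hfin
  refine ⟨hf3.subset hsub, (Set.ncard_le_ncard hsub hf3).trans ?_⟩
  refine (Set.ncard_union_le _ _).trans (add_le_add ?_ hcard)
  refine (Set.ncard_image_le hf2).trans ?_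
  rw [Set.ncard_prod]
  exact Nat.mul_le_mul hcard hcard

theorem fw_norm (𝔭 : Ideal (𝓞 K)) (hp : 𝔭.IsPrime) (hp0 : 𝔭 ≠ ⊥) (I : Ideal (𝓞 M))
    (hI : I ∈ Fw K M 𝔭) : Ideal.absNorm 𝔭 ^ 2 ≤ Ideal.absNorm I := by
  have hN1 : 0 < Ideal.absNorm 𝔭 := by
    rw [Nat.pos_iff_ne_zero, Ne, Ideal.absNorm_eq_zero_iff]
    exact hp0
  rcases hI with ⟨P, P', h1, h2, -, h4, h5, rfl⟩ | ⟨h1, h2, h3⟩
  · obtain ⟨f, hf, e⟩ := norm_over K M 𝔭 hp hp0 P h1 h4
    obtain ⟨f', hf', e'⟩ := norm_over K M 𝔭 hp hp0 P' h2 h5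
    rw [map_mul, e, e', ← pow_add]
    exact Nat.pow_le_pow_right hN1 (by omega)
  · obtain ⟨f, hf, e⟩ := norm_over K M 𝔭 hp hp0 I h1 h2
    rw [e]
    refine Nat.pow_le_pow_right hN1 ?_
    by_contra hc
    have hf1 : f = 1 := by omega
    rw [e, hf1, pow_one] at h3
    exact lt_irrefl _ h3

end facts

theorem summable_fiber {α β : Type} (π : α → β) (n : ℕ) (hfin : ∀ b, {a | π a = b}.Finite)
    (hn : ∀ b, {a | π a = b}.ncard ≤ n) (h : β → ℝ) (h0 : ∀ b, 0 ≤ h b) (hs : Summable h) :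
    Summable (fun a => h (π a)) := by
  classical
  refine summable_of_sum_le (c := n * ∑' b, h b) (fun a => h0 _) ?_
  intro s
  rw [Finset.sum_comp h π]
  calc ∑ b ∈ s.image π, (s.filter (fun a => π a = b)).card • h b
      ≤ ∑ b ∈ s.image π, (n : ℝ) * h b := by
        refine Finset.sum_le_sum fun b _ => ?_
        rw [nsmul_eq_mul]
        refine mul_le_mul_of_nonneg_right ?_ (h0 b)
        have h1 : (s.filter (fun a => π a = b)).card ≤ n := by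
          rw [← Set.ncard_coe_finset]
          refine (Set.ncard_le_ncard ?_ (hfin b)).trans (hn b)
          intro a ha
          exact (Finset.mem_filter.1 (Finset.mem_coe.1 ha)).2
        exact_mod_cast h1
    _ = n * ∑ b ∈ s.image π, h b := (Finset.mul_sum _ _ _).symm
    _ ≤ n * ∑' b, h b :=
        mul_le_mul_of_nonneg_left (hs.sum_le_tsum _ (fun b _ => h0 b)) (Nat.cast_nonneg _)

theorem t_SPF : S_SPF := by
  classical
  intro K M _ _ _ _ _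
  choose π hπ1 hπ2 hπ3 using fun I : FW K M => I.2
  let hB : Ideal (𝓞 K) → ℝ := fun 𝔭 => 1 / (Ideal.absNorm 𝔭 : ℝ) ^ 2
  have hBs : Summable hB := by
    refine (Function.Injective.summable_iff
      (Subtype.val_injective (p := fun I : Ideal (𝓞 K) => I ≠ ⊥)) ?_).1
      (Pool.Agent.TH858.J3094.summable_inv_sq K)
    intro I hI
    have : I = ⊥ := by
      by_contra hc
      exact hI ⟨⟨I, hc⟩, rfl⟩
    show (1 : ℝ) / (Ideal.absNorm I : ℝ) ^ 2 = 0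
    rw [this, Ideal.absNorm_bot]
    norm_num
  have hB0 : ∀ b, 0 ≤ hB b := by
    intro b
    show 0 ≤ 1 / (Ideal.absNorm b : ℝ) ^ 2
    positivity
  have hfib : ∀ b : Ideal (𝓞 K), {a : FW K M | π a = b}.Finite ∧
      {a : FW K M | π a = b}.ncard ≤
        Module.finrank K M * Module.finrank K M + Module.finrank K M := by
    intro b
    rcases Set.eq_empty_or_nonempty {a : FW K M | π a = b} with h0 | ⟨a₀, ha₀⟩
    · rw [h0]
      exact ⟨Set.finite_empty, by rw [Set.ncard_empty]; exact Nat.zero_le _⟩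
    · have hb : π a₀ = b := ha₀
      obtain ⟨hfin, hcard⟩ := fw_bound K M b (hb ▸ hπ1 a₀) (hb ▸ hπ2 a₀)
      have hsub : Subtype.val '' {a : FW K M | π a = b} ⊆ Fw K M b := by
        rintro _ ⟨a, ha, rfl⟩
        have h1 : π a = b := ha
        rw [← h1]
        exact hπ3 a
      have hfin' : (Subtype.val '' {a : FW K M | π a = b}).Finite := hfin.subset hsub
      refine ⟨hfin'.of_finite_image Subtype.val_injective.injOn, ?_⟩
      rw [← Set.ncard_image_of_injective _ Subtype.val_injective]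
      exact (Set.ncard_le_ncard hsub hfin).trans hcard
  have s2 := summable_fiber π _ (fun b => (hfib b).1) (fun b => (hfib b).2) hB hB0 hBs
  refine Summable.of_nonneg_of_le (fun I => by positivity) ?_ s2
  intro I
  have h1 := fw_norm K M (π I) (hπ1 I) (hπ2 I) I.1 (hπ3 I)
  have hN1 : 0 < Ideal.absNorm (π I) := by
    rw [Nat.pos_iff_ne_zero, Ne, Ideal.absNorm_eq_zero_iff]
    exact hπ2 I
  show (1 : ℝ) / Ideal.absNorm I.1 ≤ 1 / (Ideal.absNorm (π I) : ℝ) ^ 2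
  refine one_div_le_one_div_of_le (by positivity) ?_
  exact_mod_cast h1

end Pool.Agent.H419.AC.SPF
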