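import Pool.Agent.H419.AC.Lim
import Pool.Agent.H419.AC.NIL
import Pool.Agent.H419.AC.DIVI
import Pool.Agent.H419.AC.SPF
import Pool.Agent.H419.AC.BGDI
import Pool.Agent.H419.AC.POSII

/-! # The counts of the extensions with group `C₂ ≀ H` with local conditions at all primes -/

set_option autoImplicit false
set_option linter.unusedSectionVars false
set_option maxHeartbeats 1000000

open NumberField Filter Topology
open Pool.Agent.TH444.ML Pool.Agent.H419.LT Pool.Agent.H419.RM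

namespace Pool.Agent.H419.AC

section

variable {K Ω : Type} [Field K] [NumberField K] [Field Ω] [Algebra K Ω] [IsAlgClosed Ω]

/-- the split algebra satisfies all conditions -/
def AllSplit (P : Sys K) (M : Type) [Field M] [Algebra K M] : Prop :=
  ∀ 𝔭 : Ideal (𝓞 K), 𝔭.IsPrime → 𝔭 ≠ ⊥ → P 𝔭 ((𝓞 M ⧸ 𝔭.map (algebraMap (𝓞 K) (𝓞 M))) ×
    (𝓞 M ⧸ 𝔭.map (algebraMap (𝓞 K) (𝓞 M))))

theorem limAS (M : IntermediateField K Ω) [FiniteDimensional K M] [NumberField M]
    {P : Sys K} (hP : Inv P) (hacc : Accept P) :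
    ∃ c : ℝ, Tendsto (fun Y : ℝ => (Set.ncard {L : IntermediateField K Ω | L ∈ AS M Y ∧
      All P L} : ℝ) / Y) atTop (𝓝 c) := by
  obtain ⟨c, hc⟩ := limA (K := K) (M := M) (E := Ω) NIL.t_NIL DIVI.t_DIVI SPF.t_SPF hP hacc
  refine ⟨c, hc.congr fun Y => ?_⟩
  rw [ncard_AS_P M (fun L => All P L)]
  rfl

theorem posAS (M : IntermediateField K Ω) [FiniteDimensional K M] [NumberField M]
    {P : Sys K} (hP : Inv P) (hacc : Accept P)
    (h : (∃ L : IntermediateField K Ω, M ≤ L ∧ Module.finrank K L = 2 * Module.finrank K M ∧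
      All P L) ∨ AllSplit P M) :
    ¬ Tendsto (fun Y : ℝ => (Set.ncard {L : IntermediateField K Ω | L ∈ AS M Y ∧
      All P L} : ℝ) / Y) atTop (𝓝 0) := by
  intro hten
  have hten' : Tendsto (fun Y : ℝ =>
      (Set.ncard {L : IntermediateField M Ω | L ∈ QS M Ω Y ∧ All P L} : ℝ) / Y)
      atTop (𝓝 0) := by
    refine hten.congr fun Y => ?_
    rw [ncard_AS_P M (fun L => All P L)]
    rfl
  rcases h with ⟨L, hML, hL2, hT⟩ | hR
  · obtain ⟨rep, hrep⟩ := exists_rep M
    have hpos : 0 < Module.finrank K M := Module.finrank_pos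
    have hfin : Module.finrank K L = Module.finrank K M *
        Module.finrank M (IntermediateField.extendScalars hML) :=
      (Module.finrank_mul_finrank K M (IntermediateField.extendScalars hML)).symm
    have h2' : Module.finrank M (IntermediateField.extendScalars hML) = 2 := by
      rw [hL2] at hfin
      exact (Nat.eq_of_mul_eq_mul_left hpos (by rw [← hfin]; ring))
    obtain ⟨C, α₀, σ, hS, hσ, hn, hL⟩ :=
      (Pool.Agent.TH914.J3087.kumP M Ω rep hrep).1 (IntermediateField.extendScalars hML) h2'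
    have hT' : All P (IntermediateField.extendScalars hML) := hT
    rw [hL] at hT'
    refine pos_common (K := K) (M := M) (E := Ω) NIL.t_NIL SPF.t_SPF
      (POSII.t_POSII BGDI.t_BGDI) hacc α₀ hS.1 ?_ hten'
    intro 𝔭 hp hp0 β s hβ hs hns
    exact at_ty hP (hT' 𝔭 hp hp0) (pos_field TYG.t_TYG 𝔭 _ hσ hn ⟨AlgEquiv.refl⟩ β s hβ hs hns)
  · refine pos_common (K := K) (M := M) (E := Ω) NIL.t_NIL SPF.t_SPF
      (POSII.t_POSII BGDI.t_BGDI) hacc 1 one_ne_zero ?_ hten'
    intro 𝔭 hp hp0 β s hβ hs hns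
    obtain ⟨g⟩ := pos_split (K := K) TYG.t_TYG 𝔭
      ((𝓞 M ⧸ 𝔭.map (algebraMap (𝓞 K) (𝓞 M))) × (𝓞 M ⧸ 𝔭.map (algebraMap (𝓞 K) (𝓞 M))))
      (prod_quot (𝓞 K) (𝓞 M) 𝔭) β s hβ hs hns
    exact hP 𝔭 _ _ g.symm (hR 𝔭 hp hp0)

end

/-- **The count** of subfields of the algebraic closure. -/
theorem coreN (K : Type) [Field K] [NumberField K] (H : Type) [Group H]
    [Finite H] (h2 : 2 ≤ Nat.card H) (s : ℝ) (hs : s < 3 / 2)
    (hsum : Summable (fun M : Gal K (AlgebraicClosure K) H => (dsc M.1) ^ (-s))) {n : ℕ}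
    (G : Subgroup (Equiv.Perm (Fin n))) (hG : IsC2Wr H G) (P : Sys K) (hP : Inv P)
    (hacc : Accept P) :
    (∀ X : ℝ, 0 < X → (Cnt K G X).Finite) ∧
    ∃ c : ℝ, 0 ≤ c ∧
      Tendsto (fun X : ℝ =>
        (Set.ncard {L : IntermediateField K (AlgebraicClosure K) |
          L ∈ Cnt K G X ∧ All P L} : ℝ) / X) atTop (𝓝 c) ∧
      (0 < c ↔ ∃ X : ℝ, ∃ L ∈ Cnt K G X, All P L) ∧
      (0 < c ↔ ∃ M ∈ Gal K (AlgebraicClosure K) H,
        (∃ L : IntermediateField K (AlgebraicClosure K), M ≤ L ∧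
          Module.finrank K L = 2 * Module.finrank K M ∧ All P L) ∨ AllSplit P M) := by
  have hd : 0 < ((|discr K| : ℤ) : ℝ) ^ n := by
    have : (0 : ℤ) < |discr K| := abs_pos.2 (discr_ne_zero K)
    have : (0 : ℝ) < ((|discr K| : ℤ) : ℝ) := by exact_mod_cast this
    positivity
  obtain ⟨hfin, c, hc0, hlim, hiff⟩ := MK.MAINQ.t_MAINQ K (AlgebraicClosure K) H
    (fun L => All P L) h2 s hs hsum
    (fun M h => by
      have hfd := gal_fd h
      have hnf : NumberField M := nf_of_fd M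
      exact limAS M hP hacc) _ hd
  have hset : ∀ X : ℝ, {L : IntermediateField K (AlgebraicClosure K) |
      L ∈ Cnt K G X ∧ All P L} = {L : IntermediateField K (AlgebraicClosure K) |
      L ∈ TT K (AlgebraicClosure K) H (X * ((|discr K| : ℤ) : ℝ) ^ n) ∧ All P L} := by
    intro X
    rw [cnt_eq K hG]
  have hcrit : 0 < c ↔ ∃ M ∈ Gal K (AlgebraicClosure K) H,
        (∃ L : IntermediateField K (AlgebraicClosure K), M ≤ L ∧
          Module.finrank K L = 2 * Module.finrank K M ∧ All P L) ∨ AllSplit P M := by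
    rw [hiff]
    constructor
    · rintro ⟨M, hM, hne⟩
      refine ⟨M, hM, Or.inl ?_⟩
      by_contra hcon
      apply hne
      have : ∀ Y : ℝ, {L : IntermediateField K (AlgebraicClosure K) |
          L ∈ AS M Y ∧ All P L} = ∅ := by
        intro Y
        rw [Set.eq_empty_iff_forall_notMem]
        rintro L ⟨hL, hT⟩
        exact hcon ⟨L, hL.1, hL.2.1, hT⟩
      simp only [this, Set.ncard_empty, Nat.cast_zero, zero_div]
      exact tendsto_const_nhds
    · rintro ⟨M, hM, h⟩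
      have hfd := gal_fd hM
      have hnf : NumberField M := nf_of_fd M
      exact ⟨M, hM, posAS M hP hacc h⟩
  refine ⟨?_, c, hc0, ?_, ?_, hcrit⟩
  · intro X hX
    rw [cnt_eq K hG]
    exact hfin X hX
  · refine hlim.congr fun X => ?_
    rw [hset X]
  · constructor
    · intro h
      have h1 := hlim.eventually (lt_mem_nhds h)
      obtain ⟨X, hX⟩ := h1.exists
      have hne : {L : IntermediateField K (AlgebraicClosure K) |
          L ∈ TT K (AlgebraicClosure K) H (X * ((|discr K| : ℤ) : ℝ) ^ n) ∧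
            All P L}.Nonempty := by
        by_contra hcon
        rw [Set.not_nonempty_iff_eq_empty] at hcon
        rw [hcon, Set.ncard_empty, Nat.cast_zero, zero_div] at hX
        exact lt_irrefl _ hX
      rw [← hset X] at hne
      obtain ⟨L, h3, h4⟩ := hne
      exact ⟨X, L, h3, h4⟩
    · rintro ⟨X, L, hL, hT⟩
      rw [hcrit]
      rw [cnt_eq K hG] at hL
      obtain ⟨M, hM⟩ := (Pool.Agent.TH365.J3099.wrIff K (AlgebraicClosure K) H L).1
        ⟨hL.1, hL.2.1⟩
      exact ⟨M, hM.1, Or.inl ⟨L, hM.2.1, hM.2.2.2.1, hT⟩⟩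

end Pool.Agent.H419.AC
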