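import Pool.Agent.H419.AC.Base

/-! # Local conditions at all primes: the limit exists -/

set_option autoImplicit false
set_option linter.unusedSectionVars false
set_option maxHeartbeats 1000000

open NumberField Filter Topology
open Pool.Agent.TH444.ML Pool.Agent.H419.LT Pool.Agent.H419.RM

namespace Pool.Agent.H419.AC

section

variable {K M E : Type} [Field K] [NumberField K] [Field M] [NumberField M] [Field E]
  [Algebra K M] [Algebra M E] [Algebra K E] [IsScalarTower K M E] [IsAlgClosed E]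

/-- the exceptional primes -/
theorem exists_F0 {P : Sys K} (hacc : Accept P) :
    ∃ F₀ : Finset (Ideal (𝓞 K)), (∀ 𝔭 ∈ F₀, 𝔭 ≠ ⊥) ∧
      ∀ 𝔭 : Ideal (𝓞 K), 𝔭.IsPrime → 𝔭 ≠ ⊥ → 𝔭 ∉ F₀ →
        (2 : 𝓞 K) ∉ 𝔭 ∧ Unr K M 𝔭 ∧ ∀ (R : Type) [CommRing R] [Algebra (𝓞 K) R], Finite R →
          Nat.card (nilradical R) ≤ Ideal.absNorm 𝔭 → P 𝔭 R := by
  classical
  obtain ⟨S₀, hS₀, h⟩ := hacc
  refine ⟨(hS₀.toFinset.filter (fun 𝔭 => 𝔭 ≠ ⊥)) ∪ (finite_two' K).toFinset ∪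
    (finite_ram K M).toFinset, ?_, ?_⟩
  · intro 𝔭 h𝔭
    rw [Finset.mem_union, Finset.mem_union, Finset.mem_filter, Set.Finite.mem_toFinset,
      Set.Finite.mem_toFinset, Set.Finite.mem_toFinset] at h𝔭
    rcases h𝔭 with (h1 | h1) | h1
    · exact h1.2
    · exact h1.2.1
    · exact h1.2.1
  · intro 𝔭 hp hp0 h𝔭
    rw [Finset.mem_union, Finset.mem_union, Finset.mem_filter, Set.Finite.mem_toFinset,
      Set.Finite.mem_toFinset, Set.Finite.mem_toFinset] at h𝔭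
    push Not at h𝔭
    refine ⟨fun h2 => h𝔭.1.2 ⟨hp, hp0, h2⟩, ?_, ?_⟩
    · by_contra h3
      exact h𝔭.2 ⟨hp, hp0, h3⟩
    · exact h 𝔭 hp hp0 (fun h3 => hp0 (h𝔭.1.1 h3))

open Classical in
/-- the tail -/
theorem near_acc (nil : S_NIL) (divi : S_DIVI) (spf : S_SPF) {P : Sys K} (hacc : Accept P)
    (ε : ℝ) (hε : 0 < ε) :
    ∃ F : Finset (Ideal (𝓞 K)), (∀ 𝔭 ∈ F, 𝔭 ≠ ⊥) ∧ ∀ Y : ℝ, 0 < Y →
      |(Set.ncard {L : IntermediateField M E | L ∈ QS M E Y ∧ All P L} : ℝ) / Y -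
        (Set.ncard {L : IntermediateField M E | L ∈ QS M E Y ∧
          ∀ 𝔭 ∈ F, 𝔭.IsPrime → At P L 𝔭} : ℝ) / Y| ≤ ε := by
  obtain ⟨C, hC⟩ := divi M E
  obtain ⟨s, hs'⟩ := summable_iff_vanishing_norm.1 (spf K M) (ε / (|C| + 1)) (by positivity)
  obtain ⟨F₀, hF₀, hF₀'⟩ := exists_F0 (M := M) hacc
  choose q hq1 hq2 hq3 using fun I : FW K M => I.2
  set F : Finset (Ideal (𝓞 K)) := F₀ ∪ s.image q with hF
  refine ⟨F, ?_, ?_⟩
  · intro 𝔭 h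
    rw [hF, Finset.mem_union] at h
    rcases h with h | h
    · exact hF₀ 𝔭 h
    · obtain ⟨I, -, rfl⟩ := Finset.mem_image.1 h
      exact hq2 I
  intro Y hY
  set A := {L : IntermediateField M E | L ∈ QS M E Y ∧ All P L} with hA
  set B := {L : IntermediateField M E | L ∈ QS M E Y ∧
    ∀ 𝔭 ∈ F, 𝔭.IsPrime → At P L 𝔭} with hB
  have hQ := finite_QS (M := M) (E := E) Y hY.le
  have hAf : A.Finite := hQ.subset fun L h => h.1
  have hBf : B.Finite := hQ.subset fun L h => h.1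
  have hF0 : ∀ 𝔭 ∈ F, 𝔭 ≠ ⊥ := by
    intro 𝔭 h
    rw [hF, Finset.mem_union] at h
    rcases h with h | h
    · exact hF₀ 𝔭 h
    · obtain ⟨I, -, rfl⟩ := Finset.mem_image.1 h
      exact hq2 I
  have hAB : A ⊆ B := by
    rintro L ⟨h1, h2⟩
    exact ⟨h1, fun 𝔭 h𝔭 hp => h2 𝔭 hp (hF0 𝔭 h𝔭)⟩
  have hdiff : ∀ L : IntermediateField M E, L ∈ B \ A → ∃ I : FW K M, q I ∉ F ∧
      Rm M L I.1 := by
    rintro L ⟨⟨h1, h2⟩, h3⟩
    have h4 : ¬ All P L := fun h => h3 ⟨h1, h⟩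
    unfold All at h4
    push Not at h4
    obtain ⟨𝔭, hp, hp0, h5⟩ := h4
    have h𝔭F : 𝔭 ∉ F := fun h => h5 (h2 𝔭 h hp)
    have h𝔭F₀ : 𝔭 ∉ F₀ := fun h => h𝔭F (by
      rw [hF, Finset.mem_union]
      exact Or.inl h)
    obtain ⟨-, h6, h7⟩ := hF₀' 𝔭 hp hp0 h𝔭F₀
    have hnf : NumberField L := h1.2.1
    have h8 : ¬ Simple K L 𝔭 := fun h => h5 (h7 _ (finite_loc K L 𝔭 hp0) h)
    obtain ⟨I, hI, hR⟩ := nil K M L 𝔭 hp hp0 h1.1 h6 h8
    have hI' : I ∈ FW K M := ⟨𝔭, hp, hp0, hI⟩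
    refine ⟨⟨I, hI'⟩, ?_, hR⟩
    have h9 : q ⟨I, hI'⟩ = 𝔭 := by
      obtain ⟨𝔔, h10, h11⟩ := fw_ex hI
      rw [← fw_prime hp0 hI 𝔔 h10 h11]
      exact (fw_prime (hq2 ⟨I, hI'⟩) (hq3 ⟨I, hI'⟩) 𝔔 h10 h11).symm
    rw [h9]
    exact h𝔭F
  choose p hp1 hp2 using hdiff
  have hDf : (B \ A).Finite := hBf.subset Set.sdiff_subset
  set G : Finset (FW K M) := hDf.toFinset.attach.image
    (fun L => p L.1 (hDf.mem_toFinset.1 L.2)) with hG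
  have hGs : Disjoint G s := by
    rw [Finset.disjoint_left]
    intro I h1 h2
    obtain ⟨⟨L, hL'⟩, -, rfl⟩ := Finset.mem_image.1 h1
    have hL := hDf.mem_toFinset.1 hL'
    apply hp1 L hL
    rw [hF, Finset.mem_union]
    exact Or.inr (Finset.mem_image.2 ⟨_, h2, rfl⟩)
  have hcard : ((B \ A).ncard : ℝ) ≤ ∑ I ∈ G, C * Y / Ideal.absNorm I.1 := by
    have h1 : (B \ A) ⊆ ⋃ I ∈ G, {L : IntermediateField M E | L ∈ QS M E Y ∧ Rm M L I.1} := by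
      intro L hL
      rw [Set.mem_iUnion₂]
      exact ⟨p L hL, Finset.mem_image.2 ⟨⟨L, hDf.mem_toFinset.2 hL⟩, Finset.mem_attach _ _, rfl⟩,
        hL.1.1, hp2 L hL⟩
    have h2 : (⋃ I ∈ G, {L : IntermediateField M E | L ∈ QS M E Y ∧ Rm M L I.1}).Finite := by
      refine hQ.subset ?_
      intro L hL
      rw [Set.mem_iUnion₂] at hL
      obtain ⟨_, _, h3, _⟩ := hL
      exact h3
    have h3 : ((B \ A).ncard : ℝ) ≤ ∑ I ∈ G,
        (Set.ncard {L : IntermediateField M E | L ∈ QS M E Y ∧ Rm M L I.1} : ℝ) := by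
      have h4 := Set.ncard_le_ncard h1 h2
      have h5 := Finset.set_ncard_biUnion_le G
        (fun I : FW K M => {L : IntermediateField M E | L ∈ QS M E Y ∧ Rm M L I.1})
      exact_mod_cast h4.trans h5
    refine h3.trans (Finset.sum_le_sum fun I hI => ?_)
    have h5 : q I ∉ F := by
      obtain ⟨⟨L, hL⟩, -, rfl⟩ := Finset.mem_image.1 hI
      exact hp1 L (hDf.mem_toFinset.1 hL)
    have h5' : q I ∉ F₀ := fun h => h5 (by
      rw [hF, Finset.mem_union]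
      exact Or.inl h)
    obtain ⟨h6, -, -⟩ := hF₀' (q I) (hq1 I) (hq2 I) h5'
    refine hC I.1 (fw_ne_bot (hq2 I) (hq3 I)) (fw_sqf (hq2 I) (hq3 I)) ?_ Y hY.le
    intro 𝔔 h7 h8 h9
    apply h6
    rw [← fw_prime (hq2 I) (hq3 I) 𝔔 h7 h8, Ideal.mem_comap, map_ofNat]
    exact h9
  have hsum : ∑ I ∈ G, C * Y / Ideal.absNorm I.1 ≤ ε * Y := by
    have h1 : ∑ I ∈ G, C * Y / Ideal.absNorm I.1 =
        C * Y * ∑ I ∈ G, (1 : ℝ) / Ideal.absNorm I.1 := by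
      rw [Finset.mul_sum]
      exact Finset.sum_congr rfl fun _ _ => by ring
    have h2 := hs' G hGs
    rw [Real.norm_eq_abs] at h2
    have h3 : (0 : ℝ) ≤ ∑ I ∈ G, (1 : ℝ) / Ideal.absNorm I.1 :=
      Finset.sum_nonneg fun _ _ => by positivity
    rw [abs_of_nonneg h3, lt_div_iff₀ (by positivity)] at h2
    rw [h1]
    have h4 : C * Y ≤ (|C| + 1) * Y := by
      refine mul_le_mul_of_nonneg_right ?_ hY.le
      linarith [le_abs_self C]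
    calc C * Y * ∑ I ∈ G, (1 : ℝ) / Ideal.absNorm I.1
        ≤ (|C| + 1) * Y * ∑ I ∈ G, (1 : ℝ) / Ideal.absNorm I.1 :=
          mul_le_mul_of_nonneg_right h4 h3
      _ = ((∑ I ∈ G, (1 : ℝ) / Ideal.absNorm I.1) * (|C| + 1)) * Y := by ring
      _ ≤ ε * Y := mul_le_mul_of_nonneg_right h2.le hY.le
  have hBA : (B.ncard : ℝ) = A.ncard + (B \ A).ncard := by
    have := Set.ncard_sdiff_add_ncard_of_subset hAB hBf
    have h2 : (((B \ A).ncard + A.ncard : ℕ) : ℝ) = B.ncard := by exact_mod_cast this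
    push_cast at h2
    linarith
  rw [← sub_div, hBA, abs_div, abs_of_pos hY, div_le_iff₀ hY]
  have h5 : (A.ncard : ℝ) - (A.ncard + (B \ A).ncard) = - ((B \ A).ncard : ℝ) := by ring
  rw [h5, abs_neg, abs_of_nonneg (by positivity)]
  exact hcard.trans hsum

/-- the limit exists -/
theorem limA (nil : S_NIL) (divi : S_DIVI) (spf : S_SPF) {P : Sys K} (hP : Inv P)
    (hacc : Accept P) :
    ∃ c : ℝ, Tendsto (fun Y : ℝ =>
      (Set.ncard {L : IntermediateField M E | L ∈ QS M E Y ∧ All P L} : ℝ) / Y) atTop (𝓝 c) := by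
  classical
  refine tendsto_of_near _ ?_
  intro ε hε
  obtain ⟨F, hF, h2⟩ := near_acc (M := M) (E := E) nil divi spf hacc ε hε
  set F' : Finset (Ideal (𝓞 K)) := F.filter (fun 𝔭 => 𝔭.IsPrime) with hF'
  obtain ⟨c, hc⟩ := LIMP.t_LIMP M E (fun L : IntermediateField M E => ∀ 𝔭 ∈ F', At P L 𝔭)
    (locDet_atf hP F' fun 𝔭 h => hF 𝔭 (Finset.mem_filter.1 h).1)
  refine ⟨_, c, hc, ?_⟩
  filter_upwards [eventually_gt_atTop (0 : ℝ)] with Y hY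
  have h3 := h2 Y hY
  have h4 : {L : IntermediateField M E | L ∈ QS M E Y ∧ ∀ 𝔭 ∈ F, 𝔭.IsPrime → At P L 𝔭} =
      {L : IntermediateField M E | L ∈ QS M E Y ∧ ∀ 𝔭 ∈ F', At P L 𝔭} := by
    ext L
    constructor
    · rintro ⟨h5, h6⟩
      refine ⟨h5, fun 𝔭 h𝔭 => ?_⟩
      rw [hF', Finset.mem_filter] at h𝔭
      exact h6 𝔭 h𝔭.1 h𝔭.2
    · rintro ⟨h5, h6⟩
      refine ⟨h5, fun 𝔭 h𝔭 hp => h6 𝔭 ?_⟩
      rw [hF', Finset.mem_filter]
      exact ⟨h𝔭, hp⟩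
  rw [h4] at h3
  exact h3

/-- the positivity: common part -/
theorem pos_common (nil : S_NIL) (spf : S_SPF) (posii : S_POSII) {P : Sys K}
    (hacc : Accept P) (α₀ : 𝓞 M) (h0 : α₀ ≠ 0)
    (hbase : ∀ (𝔭 : Ideal (𝓞 K)), 𝔭.IsPrime → 𝔭 ≠ ⊥ → ∀ (β : 𝓞 M) (s : E),
      β - 1 ∈ Ideal.span {(4 : 𝓞 M)} * 𝔭.map (algebraMap (𝓞 K) (𝓞 M)) →
      s ^ 2 = algebraMap M E ((α₀ * β : 𝓞 M) : M) → (∀ x : M, algebraMap M E x ≠ s) →
      At P (IntermediateField.adjoin M {s}) 𝔭) :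
    ¬ Tendsto (fun Y : ℝ =>
      (Set.ncard {L : IntermediateField M E | L ∈ QS M E Y ∧ All P L} : ℝ) / Y) atTop (𝓝 0) := by
  classical
  obtain ⟨F₀, hF₀, hF₀'⟩ := exists_F0 (M := M) hacc
  set F₁ : Finset (Ideal (𝓞 K)) := (finite_below K M α₀ h0).toFinset with hF₁
  set F : Finset (Ideal (𝓞 K)) := F₀ ∪ F₁ with hF
  have hinj : Function.Injective (algebraMap (𝓞 K) (𝓞 M)) :=
    FaithfulSMul.algebraMap_injective (𝓞 K) (𝓞 M)
  have hF0 : ∀ 𝔭 ∈ F, 𝔭 ≠ ⊥ := by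
    intro 𝔭 h
    rw [hF, Finset.mem_union] at h
    rcases h with h | h
    · exact hF₀ 𝔭 h
    · rw [hF₁, Set.Finite.mem_toFinset] at h
      obtain ⟨_, _, _, _, h1⟩ := h
      exact h1
  have h𝔫 : Ideal.span {(4 : 𝓞 M)} * ∏ 𝔭 ∈ F, 𝔭.map (algebraMap (𝓞 K) (𝓞 M)) ≠ ⊥ := by
    refine mul_ne_zero ?_ (Finset.prod_ne_zero_iff.2 fun 𝔭 h => ?_)
    · rw [Ne, Ideal.zero_eq_bot, Ideal.span_singleton_eq_bot]
      norm_num
    · rw [Ne, Ideal.zero_eq_bot, Ideal.map_eq_bot_iff_of_injective hinj]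
      exact hF0 𝔭 h
  refine posii M E (fun L : IntermediateField M E => All P L) α₀ _ (FW K M) h0 h𝔫 ?_ (spf K M) ?_
  · rintro I ⟨𝔭, hp, hp0, hI⟩
    exact ⟨fw_ne_top hI, fw_ne_bot hp0 hI⟩
  · intro β s hβ hβW hs hns 𝔭 hp hp0
    by_cases h𝔭 : 𝔭 ∈ F
    · refine hbase 𝔭 hp hp0 β s ?_ hs hns
      have h4 : Ideal.span {(4 : 𝓞 M)} * ∏ 𝔮 ∈ F, 𝔮.map (algebraMap (𝓞 K) (𝓞 M)) ≤
          Ideal.span {(4 : 𝓞 M)} * 𝔭.map (algebraMap (𝓞 K) (𝓞 M)) :=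
        Ideal.mul_mono_right (Ideal.dvd_iff_le.1 (Finset.dvd_prod_of_mem _ h𝔭))
      exact h4 hβ
    · rw [hF, Finset.mem_union] at h𝔭
      push Not at h𝔭
      obtain ⟨h2, h3, h4⟩ := hF₀' 𝔭 hp hp0 h𝔭.1
      have hnf := nf_adj hs hns
      refine h4 _ (finite_loc K _ 𝔭 hp0) ?_
      by_contra h5
      obtain ⟨I, hI, hR⟩ := nil K M (IntermediateField.adjoin M {s}) 𝔭 hp hp0
        (finrank_adj hs hns) h3 h5
      refine hβW I ⟨𝔭, hp, hp0, hI⟩ (fw_mem hp0 hI β fun 𝔔 h6 h7 => ?_)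
      by_contra h8
      have h9 := fw_prime hp0 hI 𝔔 h6 h7
      have h10 : α₀ ∉ 𝔔 := by
        intro h11
        apply h𝔭.2
        rw [hF₁, Set.Finite.mem_toFinset]
        exact ⟨𝔔, h6, h11, h9, hp0⟩
      refine hR 𝔔 h6 h7 (unr_odd 𝔔 h6 (ne_bot_of_comap hp0 h9) ?_ (α₀ * β) s ?_ ?_ hns)
      · intro h11
        apply h2
        rw [← h9, Ideal.mem_comap, map_ofNat]
        exact h11
      · intro h11
        rcases h6.mem_or_mem h11 with h12 | h12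
        · exact h10 h12
        · exact h8 h12
      · rw [one_mul]
        exact hs

end

end Pool.Agent.H419.AC
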