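import Pool.Agent.H419.AC.Stm

/-! # The nilradical of `𝓞_L / 𝔭 𝓞_L` for `M / K` ramified at `𝔭` -/

set_option autoImplicit false

open NumberField

namespace Pool.Agent.H419.AC.NILM

/-- the number of the elements of `R / J` in `B / J` -/
theorem card_map {B : Type} [CommRing B] (J R : Ideal B) (h : J ≤ R) :
    Nat.card (B ⧸ J) = Nat.card (R.map (Ideal.Quotient.mk J)) * Nat.card (B ⧸ R) := by
  rw [Submodule.card_eq_card_quotient_mul_card (R.map (Ideal.Quotient.mk J))]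
  congr 1
  exact Nat.card_congr (DoubleQuot.quotQuotEquivQuotOfLE h).toEquiv

/-- a proper ideal dividing `𝔭 𝓞_M` -/
theorem norm_le (K M : Type) [Field K] [NumberField K] [Field M] [NumberField M] [Algebra K M]
    (𝔭 : Ideal (𝓞 K)) (hp : 𝔭.IsPrime) (hp0 : 𝔭 ≠ ⊥) (G : Ideal (𝓞 M)) (hG : G ≠ ⊤)
    (hG0 : G ≠ ⊥) (hle : 𝔭.map (algebraMap (𝓞 K) (𝓞 M)) ≤ G) :
    Ideal.absNorm 𝔭 ≤ Ideal.absNorm G := by
  obtain ⟨P, hPm, hGP⟩ := Ideal.exists_le_maximal G hG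
  have hmax : 𝔭.IsMaximal := hp.isMaximal hp0
  have hcomap : 𝔭 ≤ P.comap (algebraMap (𝓞 K) (𝓞 M)) :=
    Ideal.map_le_iff_le_comap.1 (hle.trans hGP)
  have hPp : P.IsPrime := hPm.isPrime
  have hover : 𝔭 = P.comap (algebraMap (𝓞 K) (𝓞 M)) :=
    hmax.eq_of_le (Ideal.IsPrime.ne_top (Ideal.comap_isPrime _ P)) hcomap
  have hlo : P.LiesOver 𝔭 := ⟨hover⟩
  have h1 : Ideal.absNorm 𝔭 ^ P.inertiaDeg (𝓞 K) = Ideal.absNorm P :=
    Ideal.absNorm_pow_inertiaDeg 𝔭 P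
  have h2 : 0 < P.inertiaDeg (𝓞 K) := Ideal.inertiaDeg_pos P (𝓞 K)
  have h3 : Ideal.absNorm 𝔭 ≠ 0 := by
    rw [Ne, Ideal.absNorm_eq_zero_iff]
    exact hp0
  have h4 : Ideal.absNorm 𝔭 ≤ Ideal.absNorm P := by
    rw [← h1]
    exact Nat.le_self_pow h2.ne' _
  have h5 : Ideal.absNorm P ∣ Ideal.absNorm G := Ideal.absNorm_dvd_absNorm_of_le hGP
  have h6 : Ideal.absNorm G ≠ 0 := by
    rw [Ne, Ideal.absNorm_eq_zero_iff]
    exact hG0
  exact h4.trans (Nat.le_of_dvd (Nat.pos_of_ne_zero h6) h5)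

theorem t_NILM : S_NILM := by
  intro K M L _ _ _ _ _ _ _ _ _ _ 𝔭 hp hp0 hfin hunr hs
  have hKM : Function.Injective (algebraMap (𝓞 K) (𝓞 M)) :=
    RingOfIntegers.algebraMap.injective K M
  have hML : Function.Injective (algebraMap (𝓞 M) (𝓞 L)) :=
    RingOfIntegers.algebraMap.injective M L
  have hJ : 𝔭.map (algebraMap (𝓞 K) (𝓞 L)) =
      (𝔭.map (algebraMap (𝓞 K) (𝓞 M))).map (algebraMap (𝓞 M) (𝓞 L)) := by
    rw [Ideal.map_map, ← IsScalarTower.algebraMap_eq]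
  have ha0 : 𝔭.map (algebraMap (𝓞 K) (𝓞 M)) ≠ ⊥ := by
    rw [Ne, Ideal.map_eq_bot_iff_of_injective hKM]
    exact hp0
  unfold RM.Unr at hunr
  unfold Simple at hs
  rw [hJ] at hs
  rw [← Ideal.isRadical_iff_quotient_reduced] at hunr
  obtain ⟨a, ha⟩ : ∃ a, a = 𝔭.map (algebraMap (𝓞 K) (𝓞 M)) := ⟨_, rfl⟩
  rw [← ha] at hs hunr ha0
  have haR : a ≤ a.radical := Ideal.le_radical
  obtain ⟨G, hG⟩ : a.radical ∣ a := Ideal.dvd_iff_le.2 haR
  have hG1 : G ≠ ⊤ := by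
    rintro rfl
    apply hunr
    rw [Ideal.mul_top] at hG
    rw [hG]
    exact Ideal.radical_isRadical _
  have hG0 : G ≠ ⊥ := by
    rintro rfl
    apply ha0
    rw [hG, Ideal.mul_bot]
  have hR0 : a.radical ≠ ⊥ := by
    intro h
    exact ha0 (le_bot_iff.1 (h ▸ haR))
  have haG : a ≤ G := hG.le.trans Ideal.mul_le_right
  have hNG : Ideal.absNorm 𝔭 ≤ Ideal.absNorm G :=
    norm_le K M 𝔭 hp hp0 G hG1 hG0 (ha ▸ haG)
  -- the image of the radical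
  obtain ⟨k, hk⟩ := Ideal.exists_radical_pow_le_of_fg a (IsNoetherian.noetherian _)
  have hJle : a.map (algebraMap (𝓞 M) (𝓞 L)) ≤
      a.radical.map (algebraMap (𝓞 M) (𝓞 L)) := Ideal.map_mono haR
  have hnil : (a.radical.map (algebraMap (𝓞 M) (𝓞 L))).map
      (Ideal.Quotient.mk (a.map (algebraMap (𝓞 M) (𝓞 L)))) ≤
      nilradical (𝓞 L ⧸ a.map (algebraMap (𝓞 M) (𝓞 L))) := by
    rw [Ideal.map_le_iff_le_comap]
    intro x hx
    rw [Ideal.mem_comap, mem_nilradical]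
    refine ⟨k, ?_⟩
    rw [← map_pow, Ideal.Quotient.eq_zero_iff_mem]
    have h1 := Ideal.pow_mem_pow hx k
    rw [← Ideal.map_pow] at h1
    exact Ideal.map_mono hk h1
  have hJ0 : a.map (algebraMap (𝓞 M) (𝓞 L)) ≠ ⊥ := by
    rw [Ne, Ideal.map_eq_bot_iff_of_injective hML]
    exact ha0
  have hRm0 : a.radical.map (algebraMap (𝓞 M) (𝓞 L)) ≠ ⊥ := by
    rw [Ne, Ideal.map_eq_bot_iff_of_injective hML]
    exact hR0
  have hcard := card_map _ _ hJle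
  have e1 : Nat.card (𝓞 L ⧸ a.map (algebraMap (𝓞 M) (𝓞 L))) =
      Ideal.absNorm (a.map (algebraMap (𝓞 M) (𝓞 L))) := by
    rw [Ideal.absNorm_apply, Submodule.cardQuot_apply]
  have e2 : Nat.card (𝓞 L ⧸ a.radical.map (algebraMap (𝓞 M) (𝓞 L))) =
      Ideal.absNorm (a.radical.map (algebraMap (𝓞 M) (𝓞 L))) := by
    rw [Ideal.absNorm_apply, Submodule.cardQuot_apply]
  have e3 : Ideal.absNorm (a.map (algebraMap (𝓞 M) (𝓞 L))) =
      Ideal.absNorm (a.radical.map (algebraMap (𝓞 M) (𝓞 L))) * Ideal.absNorm G ^ 2 := by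
    conv_lhs => rw [hG]
    rw [Ideal.map_mul, map_mul, Ideal.absNorm_algebraMap (𝓞 M) (𝓞 L) G,
      ← IsFractionRing.finrank_eq (𝓞 M) M (𝓞 L) L, hfin]
  have hRn : Ideal.absNorm (a.radical.map (algebraMap (𝓞 M) (𝓞 L))) ≠ 0 := by
    rw [Ne, Ideal.absNorm_eq_zero_iff]
    exact hRm0
  rw [e1, e2, e3, mul_comm] at hcard
  have hcard2 := Nat.eq_of_mul_eq_mul_right (Nat.pos_of_ne_zero hRn) hcard
  have hfinite : Finite (𝓞 L ⧸ a.map (algebraMap (𝓞 M) (𝓞 L))) := by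
    apply Nat.finite_of_card_ne_zero
    rw [e1, Ne, Ideal.absNorm_eq_zero_iff]
    exact hJ0
  have hmono : Nat.card ((a.radical.map (algebraMap (𝓞 M) (𝓞 L))).map
      (Ideal.Quotient.mk (a.map (algebraMap (𝓞 M) (𝓞 L))))) ≤
      Nat.card (nilradical (𝓞 L ⧸ a.map (algebraMap (𝓞 M) (𝓞 L)))) :=
    Nat.card_mono (Set.toFinite _) hnil
  have hp2 : 2 ≤ Ideal.absNorm 𝔭 := by
    have h1 : Ideal.absNorm 𝔭 ≠ 0 := by
      rw [Ne, Ideal.absNorm_eq_zero_iff]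
      exact hp0
    have h2 : Ideal.absNorm 𝔭 ≠ 1 := by
      rw [Ne, Ideal.absNorm_eq_one_iff]
      exact hp.ne_top
    omega
  have hfinal : Ideal.absNorm G ^ 2 ≤ Ideal.absNorm 𝔭 := by
    rw [hcard2]
    exact hmono.trans hs
  nlinarith [hfinal, hNG, hp2]

end Pool.Agent.H419.AC.NILM
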