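import Pool.Agent.H419.AC.StmN

/-! # Primes which are not totally split -/

set_option autoImplicit false

open NumberField Filter Topology
open Pool.Agent.H419.MK

namespace Pool.Agent.H419.AC.NSP

open UniqueFactorizationMonoid

section count

variable (F : Type) [Field F] [NumberField F]

/-- The nonzero ideals of norm at most `Z`. -/
def J (Z : ℝ) : Set (Ideal (𝓞 F)) := {I | I ≠ ⊥ ∧ (Ideal.absNorm I : ℝ) ≤ Z}

theorem J_fin (Z : ℝ) : (J F Z).Finite := by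
  refine (Ideal.finite_setOfPred_absNorm_le (S := 𝓞 F) ⌊Z⌋₊).subset ?_
  rintro I ⟨-, hI⟩
  exact Nat.le_floor hI

theorem J_lim : ∃ κ : ℝ, 0 < κ ∧
    Tendsto (fun Z : ℝ => ((J F Z).ncard : ℝ) / Z) atTop (𝓝 κ) := by
  refine ⟨_, ?_, (NumberField.Ideal.tendsto_norm_le_div_atTop₀ F).congr ?_⟩
  · have := dedekindZeta_residue_pos F
    rwa [dedekindZeta_residue_def] at this
  · intro Z
    congr 2
    rw [← Nat.card_coe_set_eq]
    refine Nat.card_congr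
      { toFun := fun x => ⟨x.1.1, nonZeroDivisors.ne_zero x.1.2, x.2⟩
        invFun := fun y => ⟨⟨y.1, mem_nonZeroDivisors_of_ne_zero y.2.1⟩, y.2.2⟩
        left_inv := fun x => rfl
        right_inv := fun y => rfl }

theorem norm_ge {I : Ideal (𝓞 F)} (hI : I ≠ ⊥) : (1 : ℝ) ≤ Ideal.absNorm I := by
  have h : Ideal.absNorm I ≠ 0 := fun h => hI (Ideal.absNorm_eq_zero_iff.1 h)
  exact_mod_cast Nat.one_le_iff_ne_zero.2 h

/-- The sum of `1 / N I` diverges. -/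
theorem diverge (D : ℝ) (hD : ∀ B : Finset (Ideal (𝓞 F)), (∀ I ∈ B, I ≠ ⊥) →
    ∑ I ∈ B, (1 : ℝ) / Ideal.absNorm I ≤ D) : False := by
  classical
  obtain ⟨κ, hκ, hlim⟩ := J_lim F
  have hs : Summable (fun I : Ideal (𝓞 F) => (1 : ℝ) / Ideal.absNorm I) := by
    refine summable_of_sum_le (c := D) (fun I => by positivity) fun s => ?_
    have h1 : ∑ I ∈ s, (1 : ℝ) / Ideal.absNorm I =
        ∑ I ∈ s.filter (fun I => I ≠ ⊥), (1 : ℝ) / Ideal.absNorm I := by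
      refine (Finset.sum_filter_of_ne (p := fun I : Ideal (𝓞 F) => I ≠ ⊥)
        fun I _ hI h => hI ?_).symm
      rw [h]
      simp
    rw [h1]
    exact hD _ fun I hI => (Finset.mem_filter.1 hI).2
  obtain ⟨s, hs'⟩ := summable_iff_vanishing_norm.1 hs (κ / 2) (by linarith)
  have h1 : ∀ᶠ Z : ℝ in atTop, ((J F Z).ncard : ℝ) / Z - (s.card : ℝ) / Z ≤ κ / 2 := by
    filter_upwards [eventually_gt_atTop 0] with Z hZ
    obtain ⟨t, ht⟩ : ∃ t : Finset (Ideal (𝓞 F)), t = (J_fin F Z).toFinset \ s := ⟨_, rfl⟩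
    have h2 := hs' t (by rw [ht]; exact Finset.sdiff_disjoint)
    have h3 := (le_abs_self _).trans h2.le
    refine le_trans ?_ h3
    have h4 : ∑ I ∈ t, (1 : ℝ) / Z ≤ ∑ I ∈ t, (1 : ℝ) / Ideal.absNorm I := by
      refine Finset.sum_le_sum fun I hI => ?_
      rw [ht, Finset.mem_sdiff, Set.Finite.mem_toFinset] at hI
      exact one_div_le_one_div_of_le (by linarith [norm_ge F hI.1.1]) hI.1.2
    refine le_trans ?_ h4
    rw [Finset.sum_const, nsmul_eq_mul, mul_one_div, ← sub_div]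
    refine div_le_div_of_nonneg_right ?_ hZ.le
    have h5 : (J F Z).ncard = (J_fin F Z).toFinset.card :=
      Set.ncard_eq_toFinset_card _ (J_fin F Z)
    have h6 := Finset.le_card_sdiff s (J_fin F Z).toFinset
    rw [← ht] at h6
    rw [h5]
    have h7 : (J_fin F Z).toFinset.card ≤ t.card + s.card := by omega
    have h8 : ((J_fin F Z).toFinset.card : ℝ) ≤ (t.card : ℝ) + s.card := by exact_mod_cast h7
    linarith
  have h2 : Tendsto (fun Z : ℝ => ((J F Z).ncard : ℝ) / Z - (s.card : ℝ) / Z) atTop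
      (𝓝 (κ - 0)) := hlim.sub (tendsto_const_nhds.div_atTop tendsto_id)
  have h3 := le_of_tendsto h2 h1
  linarith

end count

section galois

variable (K M : Type) [Field K] [NumberField K] [Field M] [NumberField M] [Algebra K M]
  [IsGalois K M]

theorem facts (𝔭 : Ideal (𝓞 K)) (hp : 𝔭.IsPrime) (hp0 : 𝔭 ≠ ⊥) (𝔓 : Ideal (𝓞 M))
    (hP : 𝔓.IsPrime) (hover : 𝔓.comap (algebraMap (𝓞 K) (𝓞 M)) = 𝔭) :
    ∃ e f : ℕ, 0 < e ∧ 0 < f ∧
      Set.ncard (𝔭.primesOver (𝓞 M)) * (e * f) = Module.finrank K M ∧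
      Ideal.absNorm 𝔓 = Ideal.absNorm 𝔭 ^ f := by
  have hlo : 𝔓.LiesOver 𝔭 := ⟨hover.symm⟩
  have hmax : 𝔭.IsMaximal := hp.isMaximal hp0
  refine ⟨𝔓.ramificationIdx (𝓞 K), 𝔓.inertiaDeg (𝓞 K), Ideal.ramificationIdx_pos 𝔓 (𝓞 K),
    Ideal.inertiaDeg_pos 𝔓 (𝓞 K), ?_, (Ideal.absNorm_pow_inertiaDeg 𝔭 𝔓).symm⟩
  rw [← Ideal.ramificationIdxIn_eq_ramificationIdx 𝔭 𝔓 Gal(M/K),
    ← Ideal.inertiaDegIn_eq_inertiaDeg 𝔭 𝔓 Gal(M/K),
    Ideal.ncard_primesOver_mul_ramificationIdxIn_mul_inertiaDegIn 𝔭 (𝓞 M) Gal(M/K),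
    IsGalois.card_aut_eq_finrank]

omit [NumberField K] [NumberField M] [IsGalois K M] in
theorem map_apply (σ : M ≃ₐ[K] M) (x : 𝓞 M) :
    ((RingOfIntegers.mapRingHom (σ : M →+* M) x : 𝓞 M) : M) = σ (x : M) := rfl

/-- Two primes with the norm of `𝔭`, if all stabilisers are trivial. -/
theorem two_primes (hn : 2 ≤ Module.finrank K M)
    (hno : ∀ P : Ideal (𝓞 M), P.IsPrime → P ≠ ⊥ → ∀ σ : M ≃ₐ[K] M, Fixes σ P → σ = 1)
    (𝔭 : Ideal (𝓞 K)) (hp : 𝔭.IsPrime) (hp0 : 𝔭 ≠ ⊥) :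
    ∃ P Q : Ideal (𝓞 M), P.IsPrime ∧ Q.IsPrime ∧ P ≠ ⊥ ∧ Q ≠ ⊥ ∧ P ≠ Q ∧
      P.comap (algebraMap (𝓞 K) (𝓞 M)) = 𝔭 ∧ Q.comap (algebraMap (𝓞 K) (𝓞 M)) = 𝔭 ∧
      Ideal.absNorm P = Ideal.absNorm 𝔭 ∧ Ideal.absNorm Q = Ideal.absNorm 𝔭 := by
  have hmax : 𝔭.IsMaximal := hp.isMaximal hp0
  obtain ⟨⟨P, hP, hPo⟩⟩ := Ideal.nonempty_primesOver (S := 𝓞 M) 𝔭
  have hPc : P.comap (algebraMap (𝓞 K) (𝓞 M)) = 𝔭 := hPo.over.symm
  have hne : ∀ Q : Ideal (𝓞 M), Q.comap (algebraMap (𝓞 K) (𝓞 M)) = 𝔭 → Q ≠ ⊥ := by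
    rintro Q hQ rfl
    apply hp0
    rw [← hQ]
    refine (RingHom.injective_iff_ker_eq_bot _).1 ?_
    exact FaithfulSMul.algebraMap_injective (𝓞 K) (𝓞 M)
  let T : (M ≃ₐ[K] M) → Ideal (𝓞 M) := fun σ =>
    P.comap (RingOfIntegers.mapRingHom (σ : M →+* M))
  have hTp : ∀ σ, (T σ).IsPrime := fun σ => Ideal.IsPrime.comap _
  have hTc : ∀ σ, (T σ).comap (algebraMap (𝓞 K) (𝓞 M)) = 𝔭 := by
    intro σ
    rw [← hPc]
    ext x
    show RingOfIntegers.mapRingHom (σ : M →+* M) (algebraMap (𝓞 K) (𝓞 M) x) ∈ P ↔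
      algebraMap (𝓞 K) (𝓞 M) x ∈ P
    have e : RingOfIntegers.mapRingHom (σ : M →+* M) (algebraMap (𝓞 K) (𝓞 M) x) =
        algebraMap (𝓞 K) (𝓞 M) x := by
      apply RingOfIntegers.ext
      exact σ.commutes (x : K)
    rw [e]
  have hTi : Function.Injective T := by
    intro σ τ h
    have h1 : Fixes (σ * τ⁻¹) P := by
      intro x hx
      have h2 : RingOfIntegers.mapRingHom ((τ⁻¹ : M ≃ₐ[K] M) : M →+* M) x ∈ T τ := by
        show RingOfIntegers.mapRingHom (τ : M →+* M)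
          (RingOfIntegers.mapRingHom ((τ⁻¹ : M ≃ₐ[K] M) : M →+* M) x) ∈ P
        have e : RingOfIntegers.mapRingHom (τ : M →+* M)
            (RingOfIntegers.mapRingHom ((τ⁻¹ : M ≃ₐ[K] M) : M →+* M) x) = x := by
          apply RingOfIntegers.ext
          exact τ.apply_symm_apply (x : M)
        rw [e]
        exact hx
      rw [← h] at h2
      exact h2
    have h2 := hno P hP (hne P hPc) _ h1
    exact mul_inv_eq_one.1 h2
  obtain ⟨e, f, he, hf, h1, h2⟩ := facts K M 𝔭 hp hp0 P hP hPc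
  have hfin : (𝔭.primesOver (𝓞 M)).Finite := IsDedekindDomain.primesOver_finite 𝔭 (𝓞 M)
  have hcard : Module.finrank K M ≤ Set.ncard (𝔭.primesOver (𝓞 M)) := by
    rw [← IsGalois.card_aut_eq_finrank K M, ← Set.ncard_univ,
      ← Set.ncard_image_of_injective Set.univ hTi]
    refine Set.ncard_le_ncard ?_ hfin
    rintro Q ⟨σ, -, rfl⟩
    exact ⟨hTp σ, ⟨(hTc σ).symm⟩⟩
  have hg0 : 0 < Set.ncard (𝔭.primesOver (𝓞 M)) := by omega
  have hnorm : ∀ Q : Ideal (𝓞 M), Q.IsPrime → Q.comap (algebraMap (𝓞 K) (𝓞 M)) = 𝔭 →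
      Ideal.absNorm Q = Ideal.absNorm 𝔭 := by
    intro Q hQ hQc
    obtain ⟨e, f, he, hf, h1, h2⟩ := facts K M 𝔭 hp hp0 Q hQ hQc
    have h3 : e * f ≤ 1 := by
      by_contra h4
      have h5 : 2 ≤ e * f := by omega
      have h6 := Nat.mul_le_mul_left (Set.ncard (𝔭.primesOver (𝓞 M))) h5
      omega
    have h4 : f ≤ 1 := le_trans (Nat.le_mul_of_pos_left f he) h3
    have h5 : f = 1 := by omega
    rw [h2, h5, pow_one]
  have hex : ∃ σ : M ≃ₐ[K] M, σ ≠ 1 := by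
    by_contra h3
    push Not at h3
    have h4 : Nat.card (M ≃ₐ[K] M) ≤ 1 := by
      have : Subsingleton (M ≃ₐ[K] M) := ⟨fun a b => (h3 a).trans (h3 b).symm⟩
      exact Finite.card_le_one_iff_subsingleton.2 this
    rw [IsGalois.card_aut_eq_finrank] at h4
    omega
  obtain ⟨σ, hσ⟩ := hex
  exact ⟨T 1, T σ, hTp 1, hTp σ, hne _ (hTc 1), hne _ (hTc σ), fun h => hσ (hTi h).symm,
    hTc 1, hTc σ, hnorm _ (hTp 1) (hTc 1), hnorm _ (hTp σ) (hTc σ)⟩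

end galois

section pairs

variable {K M : Type} [Field K] [NumberField K] [Field M] [NumberField M]

/-- The multiplicative extension. -/
noncomputable def T (φ : Ideal (𝓞 K) → Ideal (𝓞 M)) (𝔞 : Ideal (𝓞 K)) : Ideal (𝓞 M) :=
  ((normalizedFactors 𝔞).map φ).prod

theorem nf_prime {𝔞 p : Ideal (𝓞 K)} (h : p ∈ normalizedFactors 𝔞) : p.IsPrime ∧ p ≠ ⊥ := by
  have h1 := prime_of_normalized_factor p h
  exact ⟨Ideal.isPrime_of_prime h1, h1.ne_zero⟩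

theorem T_norm {φ : Ideal (𝓞 K) → Ideal (𝓞 M)}
    (hφ : ∀ p : Ideal (𝓞 K), p.IsPrime → p ≠ ⊥ → Ideal.absNorm (φ p) = Ideal.absNorm p)
    {𝔞 : Ideal (𝓞 K)} (h0 : 𝔞 ≠ ⊥) : Ideal.absNorm (T φ 𝔞) = Ideal.absNorm 𝔞 := by
  unfold T
  rw [map_multiset_prod, Multiset.map_map]
  have h1 : (normalizedFactors 𝔞).map (Ideal.absNorm ∘ φ) =
      (normalizedFactors 𝔞).map Ideal.absNorm :=
    Multiset.map_congr rfl fun p hp => hφ p (nf_prime hp).1 (nf_prime hp).2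
  rw [h1, ← map_multiset_prod, Ideal.prod_normalizedFactors_eq_self h0]

theorem T_nf {φ ψ : Ideal (𝓞 K) → Ideal (𝓞 M)}
    (hφ : ∀ p : Ideal (𝓞 K), p.IsPrime → p ≠ ⊥ → Prime (φ p))
    (hψ : ∀ p : Ideal (𝓞 K), p.IsPrime → p ≠ ⊥ → Prime (ψ p)) (𝔞 𝔟 : Ideal (𝓞 K)) :
    normalizedFactors (T φ 𝔞 * T ψ 𝔟) =
      (normalizedFactors 𝔞).map φ + (normalizedFactors 𝔟).map ψ := by
  unfold T
  rw [← Multiset.prod_add]
  refine normalizedFactors_prod_of_prime fun P hP => ?_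
  rcases Multiset.mem_add.1 hP with h | h
  · obtain ⟨p, hp, rfl⟩ := Multiset.mem_map.1 h
    exact hφ p (nf_prime hp).1 (nf_prime hp).2
  · obtain ⟨p, hp, rfl⟩ := Multiset.mem_map.1 h
    exact hψ p (nf_prime hp).1 (nf_prime hp).2

omit [NumberField M] in
theorem rec1 {φ ψ : Ideal (𝓞 K) → Ideal (𝓞 M)} (π : Ideal (𝓞 M) → Ideal (𝓞 K))
    (h1 : ∀ p : Ideal (𝓞 K), p.IsPrime → p ≠ ⊥ → π (φ p) = p)
    (h2 : ∀ p : Ideal (𝓞 K), p.IsPrime → p ≠ ⊥ → π (ψ p) = p)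
    (h3 : ∀ p : Ideal (𝓞 K), p.IsPrime → p ≠ ⊥ → φ p ≠ ψ p) (𝔞 𝔟 : Ideal (𝓞 K)) :
    (open Classical in ((normalizedFactors 𝔞).map φ + (normalizedFactors 𝔟).map ψ).filter
      (fun P => φ (π P) = P)).map π = normalizedFactors 𝔞 := by
  classical
  rw [Multiset.filter_add]
  have e1 : ((normalizedFactors 𝔞).map φ).filter (fun P => φ (π P) = P) =
      (normalizedFactors 𝔞).map φ := by
    refine Multiset.filter_eq_self.2 fun P hP => ?_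
    obtain ⟨p, hp, rfl⟩ := Multiset.mem_map.1 hP
    rw [h1 p (nf_prime hp).1 (nf_prime hp).2]
  have e2 : ((normalizedFactors 𝔟).map ψ).filter (fun P => φ (π P) = P) = 0 := by
    refine Multiset.filter_eq_nil.2 fun P hP => ?_
    obtain ⟨p, hp, rfl⟩ := Multiset.mem_map.1 hP
    rw [h2 p (nf_prime hp).1 (nf_prime hp).2]
    exact h3 p (nf_prime hp).1 (nf_prime hp).2
  rw [e1, e2, add_zero, Multiset.map_map]
  conv_rhs => rw [← Multiset.map_id (normalizedFactors 𝔞)]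
  exact Multiset.map_congr rfl fun p hp => h1 p (nf_prime hp).1 (nf_prime hp).2

theorem T_inj {φ ψ : Ideal (𝓞 K) → Ideal (𝓞 M)} (π : Ideal (𝓞 M) → Ideal (𝓞 K))
    (hφ : ∀ p : Ideal (𝓞 K), p.IsPrime → p ≠ ⊥ → Prime (φ p))
    (hψ : ∀ p : Ideal (𝓞 K), p.IsPrime → p ≠ ⊥ → Prime (ψ p))
    (h1 : ∀ p : Ideal (𝓞 K), p.IsPrime → p ≠ ⊥ → π (φ p) = p)
    (h2 : ∀ p : Ideal (𝓞 K), p.IsPrime → p ≠ ⊥ → π (ψ p) = p)
    (h3 : ∀ p : Ideal (𝓞 K), p.IsPrime → p ≠ ⊥ → φ p ≠ ψ p) {𝔞 𝔟 𝔞' 𝔟' : Ideal (𝓞 K)}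
    (ha : 𝔞 ≠ ⊥) (hb : 𝔟 ≠ ⊥) (ha' : 𝔞' ≠ ⊥) (hb' : 𝔟' ≠ ⊥)
    (h : T φ 𝔞 * T ψ 𝔟 = T φ 𝔞' * T ψ 𝔟') : 𝔞 = 𝔞' ∧ 𝔟 = 𝔟' := by
  have e := congrArg normalizedFactors h
  rw [T_nf hφ hψ, T_nf hφ hψ] at e
  have e1 : normalizedFactors 𝔞 = normalizedFactors 𝔞' := by
    rw [← rec1 π h1 h2 h3 𝔞 𝔟, e, rec1 π h1 h2 h3 𝔞' 𝔟']
  have e2 : normalizedFactors 𝔟 = normalizedFactors 𝔟' := by
    rw [e1] at e
    have e3 := Multiset.add_right_inj.1 e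
    have e4 := congrArg (Multiset.map π) e3
    rw [Multiset.map_map, Multiset.map_map] at e4
    have e5 : ∀ 𝔠 : Ideal (𝓞 K), (normalizedFactors 𝔠).map (π ∘ ψ) = normalizedFactors 𝔠 := by
      intro 𝔠
      conv_rhs => rw [← Multiset.map_id (normalizedFactors 𝔠)]
      exact Multiset.map_congr rfl fun p hp => h2 p (nf_prime hp).1 (nf_prime hp).2
    rwa [e5, e5] at e4
  constructor
  · rw [← Ideal.prod_normalizedFactors_eq_self ha, e1, Ideal.prod_normalizedFactors_eq_self ha']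
  · rw [← Ideal.prod_normalizedFactors_eq_self hb, e2, Ideal.prod_normalizedFactors_eq_self hb']

end pairs

/-- **NSP**: not all primes are totally split. -/
theorem t_NSP : S_NSP := by
  classical
  intro K M _ _ _ _ _ _ hn
  by_contra hcon
  have hno : ∀ P : Ideal (𝓞 M), P.IsPrime → P ≠ ⊥ → ∀ σ : M ≃ₐ[K] M, Fixes σ P → σ = 1 := by
    intro P hP hP0 σ hσ
    by_contra h
    exact hcon ⟨P, hP, hP0, σ, h, hσ⟩
  have hex : ∀ 𝔭 : Ideal (𝓞 K), ∃ P Q : Ideal (𝓞 M), 𝔭.IsPrime → 𝔭 ≠ ⊥ →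
      P.IsPrime ∧ Q.IsPrime ∧ P ≠ ⊥ ∧ Q ≠ ⊥ ∧ P ≠ Q ∧
      P.comap (algebraMap (𝓞 K) (𝓞 M)) = 𝔭 ∧ Q.comap (algebraMap (𝓞 K) (𝓞 M)) = 𝔭 ∧
      Ideal.absNorm P = Ideal.absNorm 𝔭 ∧ Ideal.absNorm Q = Ideal.absNorm 𝔭 := by
    intro 𝔭
    by_cases h : 𝔭.IsPrime ∧ 𝔭 ≠ ⊥
    · obtain ⟨P, Q, hPQ⟩ := two_primes K M hn hno 𝔭 h.1 h.2
      exact ⟨P, Q, fun _ _ => hPQ⟩
    · exact ⟨⊥, ⊥, fun h1 h2 => absurd ⟨h1, h2⟩ h⟩
  choose φ ψ hφψ using hex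
  obtain ⟨κ, hκ, hK⟩ := J_lim K
  obtain ⟨κ', hκ', hM⟩ := J_lim M
  have hprime : ∀ P : Ideal (𝓞 M), P.IsPrime → P ≠ ⊥ → Prime P := fun P h h0 =>
    Ideal.prime_of_isPrime h0 h
  have hcount : ∀ (B : Finset (Ideal (𝓞 K))), (∀ I ∈ B, I ≠ ⊥) → ∀ Z : ℝ,
      ∑ 𝔟 ∈ B, (J K (Z / Ideal.absNorm 𝔟)).ncard ≤ (J M Z).ncard := by
    intro B hB Z
    have e1 : ∑ 𝔟 ∈ B, (J K (Z / Ideal.absNorm 𝔟)).ncard =
        (B.sigma fun 𝔟 => (J_fin K (Z / Ideal.absNorm 𝔟)).toFinset).card := by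
      rw [Finset.card_sigma]
      exact Finset.sum_congr rfl fun 𝔟 _ => Set.ncard_eq_toFinset_card _ _
    rw [e1, Set.ncard_eq_toFinset_card _ (J_fin M Z)]
    refine Finset.card_le_card_of_injOn (fun x => T φ x.2 * T ψ x.1) ?_ ?_
    · rintro ⟨𝔟, 𝔞⟩ hx
      obtain ⟨hb, ha⟩ := Finset.mem_sigma.1 hx
      obtain ⟨ha0, ha1⟩ := (Set.Finite.mem_toFinset _).1 ha
      have hb0 := hB _ hb
      refine (Set.Finite.mem_toFinset _).2 ?_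
      have h1 : Ideal.absNorm (T φ 𝔞 * T ψ 𝔟) = Ideal.absNorm 𝔞 * Ideal.absNorm 𝔟 := by
        rw [map_mul, T_norm (fun p h h0 => (hφψ p h h0).2.2.2.2.2.2.2.1) ha0,
          T_norm (fun p h h0 => (hφψ p h h0).2.2.2.2.2.2.2.2) hb0]
      have h2 := norm_ge K ha0
      have h3 := norm_ge K hb0
      refine ⟨?_, ?_⟩
      · intro h
        have h4 : Ideal.absNorm (T φ 𝔞 * T ψ 𝔟) = 0 := Ideal.absNorm_eq_zero_iff.2 h
        rw [h1] at h4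
        have h5 : (Ideal.absNorm 𝔞 : ℝ) * Ideal.absNorm 𝔟 = 0 := by exact_mod_cast h4
        have h6 : (0 : ℝ) < (Ideal.absNorm 𝔞 : ℝ) * Ideal.absNorm 𝔟 :=
          mul_pos (by linarith) (by linarith)
        linarith
      · show ((Ideal.absNorm (T φ 𝔞 * T ψ 𝔟) : ℕ) : ℝ) ≤ Z
        rw [h1]
        push_cast
        rw [le_div_iff₀ (by linarith)] at ha1
        exact ha1
    · rintro ⟨𝔟, 𝔞⟩ hx ⟨𝔟', 𝔞'⟩ hx' h
      obtain ⟨hb, ha⟩ := Finset.mem_sigma.1 hx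
      obtain ⟨hb', ha'⟩ := Finset.mem_sigma.1 hx'
      obtain ⟨ha0, -⟩ := (Set.Finite.mem_toFinset _).1 ha
      obtain ⟨ha0', -⟩ := (Set.Finite.mem_toFinset _).1 ha'
      obtain ⟨e1, e2⟩ := T_inj (φ := φ) (ψ := ψ)
        (fun P => P.comap (algebraMap (𝓞 K) (𝓞 M)))
        (fun p h h0 => hprime _ (hφψ p h h0).1 (hφψ p h h0).2.2.1)
        (fun p h h0 => hprime _ (hφψ p h h0).2.1 (hφψ p h h0).2.2.2.1)
        (fun p h h0 => (hφψ p h h0).2.2.2.2.2.1) (fun p h h0 => (hφψ p h h0).2.2.2.2.2.2.1)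
        (fun p h h0 => (hφψ p h h0).2.2.2.2.1) ha0 (hB _ hb) ha0' (hB _ hb') h
      subst e1 e2
      rfl
  refine diverge K (κ' / κ) fun B hB => ?_
  have h1 : Tendsto (fun Z : ℝ => ∑ 𝔟 ∈ B, ((J K (Z / Ideal.absNorm 𝔟)).ncard : ℝ) / Z) atTop
      (𝓝 (∑ 𝔟 ∈ B, κ * (1 / Ideal.absNorm 𝔟))) := by
    refine tendsto_finsetSum _ fun 𝔟 hb => ?_
    have h2 : (0 : ℝ) < Ideal.absNorm 𝔟 := by linarith [norm_ge K (hB 𝔟 hb)]
    have h3 : Tendsto (fun Z : ℝ => Z / (Ideal.absNorm 𝔟 : ℝ)) atTop atTop :=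
      tendsto_id.atTop_div_const h2
    have h4 := (hK.comp h3).mul_const (1 / (Ideal.absNorm 𝔟 : ℝ))
    refine h4.congr fun Z => ?_
    simp only [Function.comp_apply]
    field_simp
  have h2 : ∑ 𝔟 ∈ B, κ * (1 / (Ideal.absNorm 𝔟 : ℝ)) ≤ κ' := by
    refine le_of_tendsto_of_tendsto h1 hM ?_
    filter_upwards [eventually_gt_atTop 0] with Z hZ
    rw [← Finset.sum_div]
    refine div_le_div_of_nonneg_right ?_ hZ.le
    exact_mod_cast hcount B hB Z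
  rw [← Finset.mul_sum] at h2
  rw [le_div_iff₀ hκ]
  linarith

end Pool.Agent.H419.AC.NSP
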