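import Pool.Agent.H419.RM.Stm

/-! # Malle's conjecture for `C₂ ≀ H` and acceptable local conditions at all primes: statements -/

set_option autoImplicit false

open NumberField Filter Topology
open Pool.Agent.TH444.ML Pool.Agent.H419.LT Pool.Agent.H419.RM

namespace Pool.Agent.H419.AC

/-- The nilradical of `𝓞_L / 𝔭 𝓞_L` has at most `N 𝔭` elements. -/
def Simple (K L : Type) [Field K] [NumberField K] [Field L] [Algebra K L] (𝔭 : Ideal (𝓞 K)) :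
    Prop :=
  Nat.card (nilradical (𝓞 L ⧸ 𝔭.map (algebraMap (𝓞 K) (𝓞 L)))) ≤ Ideal.absNorm 𝔭

/-- `L / M` is ramified at all prime divisors of `I`. -/
def Rm (M L : Type) [Field M] [Field L] [Algebra M L] (I : Ideal (𝓞 M)) : Prop :=
  ∀ 𝔓 : Ideal (𝓞 M), 𝔓.IsPrime → I ≤ 𝔓 → ¬ Unr M L 𝔓

/-- The prime `𝔭` of `K` is totally split in `M`. -/
def Spl (K M : Type) [Field K] [Field M] [Algebra K M] (𝔭 : Ideal (𝓞 K)) : Prop :=
  Set.ncard (𝔭.primesOver (𝓞 M)) = Module.finrank K M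

/-- The products of two primes above `𝔭`, and the primes above `𝔭` of larger norm. -/
def Fw (K M : Type) [Field K] [NumberField K] [Field M] [NumberField M] [Algebra K M]
    (𝔭 : Ideal (𝓞 K)) : Set (Ideal (𝓞 M)) :=
  {I | (∃ 𝔓 𝔓' : Ideal (𝓞 M), 𝔓.IsPrime ∧ 𝔓'.IsPrime ∧ 𝔓 ≠ 𝔓' ∧
      𝔓.comap (algebraMap (𝓞 K) (𝓞 M)) = 𝔭 ∧ 𝔓'.comap (algebraMap (𝓞 K) (𝓞 M)) = 𝔭 ∧
      I = 𝔓 * 𝔓') ∨
    (I.IsPrime ∧ I.comap (algebraMap (𝓞 K) (𝓞 M)) = 𝔭 ∧ Ideal.absNorm 𝔭 < Ideal.absNorm I)}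

/-- The union of these sets of ideals. -/
def FW (K M : Type) [Field K] [NumberField K] [Field M] [NumberField M] [Algebra K M] :
    Set (Ideal (𝓞 M)) :=
  {I | ∃ 𝔭 : Ideal (𝓞 K), 𝔭.IsPrime ∧ 𝔭 ≠ ⊥ ∧ I ∈ Fw K M 𝔭}

/-- DIVI: quadratic extensions of `M` ramified at all prime divisors of a given ideal. -/
def S_DIVI : Prop := ∀ (M E : Type) [Field M] [NumberField M] [Field E] [Algebra M E]
  [IsAlgClosed E], ∃ C : ℝ, ∀ I : Ideal (𝓞 M), I ≠ ⊥ → Squarefree I →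
  (∀ 𝔓 : Ideal (𝓞 M), 𝔓.IsPrime → I ≤ 𝔓 → (2 : 𝓞 M) ∉ 𝔓) → ∀ Y : ℝ, 0 ≤ Y →
    (Set.ncard {L : IntermediateField M E | L ∈ QS M E Y ∧ Rm M L I} : ℝ) ≤
      C * Y / Ideal.absNorm I

/-- BGDI: elements near `1` outside of the ideals of a set with a convergent sum. -/
def S_BGDI : Prop := ∀ (M : Type) [Field M] [NumberField M] (𝔫 : Ideal (𝓞 M))
  (W : Set (Ideal (𝓞 M))), 𝔫 ≠ ⊥ → (∀ I ∈ W, I ≠ ⊤ ∧ I ≠ ⊥) →
  Summable (fun I : W => (1 : ℝ) / Ideal.absNorm I.1) →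
  ∃ δ : ℝ, 0 < δ ∧ ∀ᶠ Z : ℝ in atTop, δ * Z ≤
    (Set.ncard {α : 𝓞 M | α ∈ cone M ∧ α - 1 ∈ 𝔫 ∧ (∀ I ∈ W, α ∉ I) ∧ nrm α ≤ Z} : ℝ)

/-- POSII: the limit is positive, if the fields `M(√(α₀ β))` have the property for the `β ≡ 1`
modulo `𝔫` outside of the ideals in `W`. -/
def S_POSII : Prop := ∀ (M E : Type) [Field M] [NumberField M] [Field E] [Algebra M E]
  [IsAlgClosed E] (T : IntermediateField M E → Prop) (α₀ : 𝓞 M) (𝔫 : Ideal (𝓞 M))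
  (W : Set (Ideal (𝓞 M))), α₀ ≠ 0 → 𝔫 ≠ ⊥ → (∀ I ∈ W, I ≠ ⊤ ∧ I ≠ ⊥) →
  Summable (fun I : W => (1 : ℝ) / Ideal.absNorm I.1) →
  (∀ (β : 𝓞 M) (s : E), β - 1 ∈ 𝔫 → (∀ I ∈ W, β ∉ I) →
    s ^ 2 = algebraMap M E ((α₀ * β : 𝓞 M) : M) →
    (∀ x : M, algebraMap M E x ≠ s) → T (IntermediateField.adjoin M {s})) →
  ¬ Tendsto (fun Y : ℝ =>
    (Set.ncard {L : IntermediateField M E | L ∈ QS M E Y ∧ T L} : ℝ) / Y) atTop (𝓝 0)

/-- NIL: if the nilradical is large, `L / M` is ramified at all prime divisors of an ideal of the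
family. -/
def S_NIL : Prop := ∀ (K M L : Type) [Field K] [NumberField K] [Field M] [NumberField M]
  [Field L] [NumberField L] [Algebra K M] [Algebra M L] [Algebra K L] [IsScalarTower K M L]
  (𝔭 : Ideal (𝓞 K)), 𝔭.IsPrime → 𝔭 ≠ ⊥ → Module.finrank M L = 2 → Unr K M 𝔭 →
  ¬ Simple K L 𝔭 → ∃ I ∈ Fw K M 𝔭, Rm M L I

/-- NILM: if `M / K` is ramified, the nilradical is large. -/
def S_NILM : Prop := ∀ (K M L : Type) [Field K] [NumberField K] [Field M] [NumberField M]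
  [Field L] [NumberField L] [Algebra K M] [Algebra M L] [Algebra K L] [IsScalarTower K M L]
  (𝔭 : Ideal (𝓞 K)), 𝔭.IsPrime → 𝔭 ≠ ⊥ → Module.finrank M L = 2 → ¬ Unr K M 𝔭 →
  ¬ Simple K L 𝔭

/-- SPF: the sum over the family converges. -/
def S_SPF : Prop := ∀ (K M : Type) [Field K] [NumberField K] [Field M] [NumberField M]
  [Algebra K M], Summable (fun I : FW K M => (1 : ℝ) / Ideal.absNorm I.1)

/-- BAU: totally split primes in two different Galois extensions of the same degree. -/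
def S_BAU : Prop := ∀ (K Ω : Type) [Field K] [NumberField K] [Field Ω] [Algebra K Ω]
  (M M' : IntermediateField K Ω), FiniteDimensional K M → FiniteDimensional K M' →
  IsGalois K M → IsGalois K M' → Module.finrank K M = Module.finrank K M' → M ≠ M' →
  ¬ Summable (fun 𝔭 : {𝔭 : Ideal (𝓞 K) | 𝔭.IsPrime ∧ 𝔭 ≠ ⊥ ∧ Spl K M 𝔭 ∧ Unr K M' 𝔭 ∧
    ¬ Spl K M' 𝔭} => (1 : ℝ) / Ideal.absNorm 𝔭.1)

end Pool.Agent.H419.AC
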