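import Pool.Agent.H419.AC.Stm
import Pool.Agent.H419.MK.Stm

/-! # Primes which are not totally split: statement -/

set_option autoImplicit false

open NumberField
open Pool.Agent.H419.MK

namespace Pool.Agent.H419.AC

/-- NSP: not all primes are totally split. -/
def S_NSP : Prop := ∀ (K M : Type) [Field K] [NumberField K] [Field M] [NumberField M]
  [Algebra K M] [IsGalois K M], 2 ≤ Module.finrank K M →
  ∃ P : Ideal (𝓞 M), P.IsPrime ∧ P ≠ ⊥ ∧ ∃ σ : M ≃ₐ[K] M, σ ≠ 1 ∧ Fixes σ P

end Pool.Agent.H419.AC
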